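import Pool.Agent.SO.Geo

set_option autoImplicit false

namespace Pool.Agent.SO

open Finset

section pos
variable {X : Type} [PartialOrder X] [Fintype X]

open Classical in
/-- coordinates of the centres -/
noncomputable def AA (l : X → ℕ) (x z : X) : ℝ :=
  if Odd (l x) then (if z = x then 1 else 0)
  else if Odd (l z) then
    (if x ≤ z ∨ z ≤ x then 1 / (Fintype.card X + 1 : ℝ) else -(1 / (Fintype.card X + 1 : ℝ)))
  else (if z = x then 1 / (Fintype.card X + 1 : ℝ) else 0)

lemma eps_pos : (0 : ℝ) < 1 / (Fintype.card X + 1 : ℝ) := by positivity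

lemma eps_le : 1 / (Fintype.card X + 1 : ℝ) ≤ 1 := by
  rw [div_le_one (by positivity)]
  have : (0 : ℝ) ≤ Fintype.card X := by positivity
  linarith

lemma AA_even_sq (l : X → ℕ) {x : X} (hx : ¬ Odd (l x)) (z : X) :
    (AA l x z) ^ 2 ≤ (1 / (Fintype.card X + 1 : ℝ)) ^ 2 := by
  unfold AA
  rw [if_neg hx]
  have h := sq_nonneg (1 / (Fintype.card X + 1 : ℝ))
  split_ifs
  · exact le_refl _
  · rw [neg_sq]
  · exact le_refl _
  · simpa using h

lemma AA_even_sum (l : X → ℕ) {x : X} (hx : ¬ Odd (l x)) :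
    ∑ z, (AA l x z) ^ 2 ≤ 1 / (Fintype.card X + 1 : ℝ) := by
  calc ∑ z, (AA l x z) ^ 2 ≤ ∑ _z : X, (1 / (Fintype.card X + 1 : ℝ)) ^ 2 :=
        Finset.sum_le_sum (fun z _ => AA_even_sq l hx z)
    _ = (Fintype.card X : ℝ) * (1 / (Fintype.card X + 1 : ℝ)) ^ 2 := by
        rw [Finset.sum_const, Finset.card_univ, nsmul_eq_mul]
    _ ≤ (Fintype.card X + 1 : ℝ) * (1 / (Fintype.card X + 1 : ℝ)) ^ 2 := by
        apply mul_le_mul_of_nonneg_right (by linarith) (sq_nonneg _)
    _ = _ := by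
        have : (Fintype.card X + 1 : ℝ) ≠ 0 := by positivity
        field_simp

lemma AA_odd_sum (l : X → ℕ) {x : X} (hx : Odd (l x)) : ∑ z, (AA l x z) ^ 2 = 1 := by
  classical
  have h : ∀ z, (AA l x z) ^ 2 = if z = x then 1 else 0 := by
    intro z
    unfold AA
    rw [if_pos hx]
    split_ifs <;> norm_num
  rw [Finset.sum_congr rfl (fun z _ => h z)]
  simp

lemma AA_sum_le (l : X → ℕ) (x : X) : ∑ z, (AA l x z) ^ 2 ≤ 1 := by
  by_cases hx : Odd (l x)
  · exact (AA_odd_sum l hx).le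
  · exact (AA_even_sum l hx).trans eps_le

/-- squared distance -/
noncomputable def DD (l : X → ℕ) (x y : X) : ℝ := ∑ z, (AA l x z - AA l y z) ^ 2

lemma DD_symm (l : X → ℕ) (x y : X) : DD l x y = DD l y x := by
  unfold DD
  exact Finset.sum_congr rfl (fun z _ => by ring)

lemma DD_le (l : X → ℕ) (x y : X) : DD l x y ≤ 4 := by
  have h : DD l x y ≤ ∑ z, (2 * (AA l x z) ^ 2 + 2 * (AA l y z) ^ 2) := by
    refine Finset.sum_le_sum (fun z _ => ?_)
    nlinarith [sq_nonneg (AA l x z + AA l y z)]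
  rw [Finset.sum_add_distrib, ← Finset.mul_sum, ← Finset.mul_sum] at h
  have := AA_sum_le l x
  have := AA_sum_le l y
  linarith

lemma DD_pos (l : X → ℕ) {x y : X} (hxy : x ≠ y) (hl : l x = l y) : 0 < DD l x y := by
  have h1 : (AA l x x - AA l y x) ^ 2 ≤ DD l x y :=
    Finset.single_le_sum (f := fun z => (AA l x z - AA l y z) ^ 2)
      (fun z _ => sq_nonneg _) (Finset.mem_univ x)
  refine lt_of_lt_of_le ?_ h1
  unfold AA
  rw [← hl]
  have := eps_pos (X := X)
  by_cases hx : Odd (l x)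
  · simp [if_pos hx, if_neg hxy]
  · simp only [if_neg hx, if_neg hxy, if_true, sub_zero]
    positivity

lemma DD_mixed (l : X → ℕ) {x y : X} (hx : ¬ Odd (l x)) (hy : Odd (l y)) :
    DD l x y = ∑ z, (AA l x z) ^ 2 - 2 * AA l x y + 1 := by
  classical
  unfold DD
  have h : ∀ z, (AA l x z - AA l y z) ^ 2 =
      (AA l x z) ^ 2 - (if z = y then 2 * AA l x z else 0) + (if z = y then 1 else 0) := by
    intro z
    have e : AA l y z = if z = y then 1 else 0 := by
      unfold AA; rw [if_pos hy]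
    rw [e]
    split_ifs <;> ring
  rw [Finset.sum_congr rfl (fun z _ => h z), Finset.sum_add_distrib, Finset.sum_sub_distrib]
  simp

lemma DD_comp (l : X → ℕ) {x y : X} (hx : ¬ Odd (l x)) (hy : Odd (l y)) (h : x ≤ y ∨ y ≤ x) :
    DD l x y ≤ 1 := by
  rw [DD_mixed l hx hy]
  have e : AA l x y = 1 / (Fintype.card X + 1 : ℝ) := by
    unfold AA; rw [if_neg hx, if_pos hy, if_pos h]
  have := AA_even_sum l hx
  have := eps_pos (X := X)
  rw [e]; linarith

lemma DD_inc (l : X → ℕ) {x y : X} (hx : ¬ Odd (l x)) (hy : Odd (l y)) (h : ¬ (x ≤ y ∨ y ≤ x)) :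
    1 < DD l x y := by
  rw [DD_mixed l hx hy]
  have e : AA l x y = -(1 / (Fintype.card X + 1 : ℝ)) := by
    unfold AA; rw [if_neg hx, if_pos hy, if_neg h]
  have h1 : 0 ≤ ∑ z, (AA l x z) ^ 2 := Finset.sum_nonneg (fun z _ => sq_nonneg _)
  have := eps_pos (X := X)
  rw [e]; linarith

/-- adjacent levels, comparable -/
lemma DD_adj_comp (l : X → ℕ) {x y : X} (hl : l y = l x + 1) (h : x ≤ y) : DD l x y ≤ 1 := by
  by_cases hx : Odd (l x)
  · have hy : ¬ Odd (l y) := by
      rw [hl, Nat.not_odd_iff_even]; exact hx.add_one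
    rw [DD_symm]
    exact DD_comp l hy hx (Or.inr h)
  · have hy : Odd (l y) := by
      rw [hl]; exact (Nat.not_odd_iff_even.mp hx).add_one
    exact DD_comp l hx hy (Or.inl h)

lemma DD_adj_inc (l : X → ℕ) {x y : X} (hl : l y = l x + 1) (h : ¬ (x ≤ y ∨ y ≤ x)) :
    1 < DD l x y := by
  by_cases hx : Odd (l x)
  · have hy : ¬ Odd (l y) := by
      rw [hl, Nat.not_odd_iff_even]; exact hx.add_one
    rw [DD_symm]
    exact DD_inc l hy hx (fun h' => h h'.symm)
  · have hy : Odd (l y) := by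
      rw [hl]; exact (Nat.not_odd_iff_even.mp hx).add_one
    exact DD_inc l hx hy h

/-- the centre in `ℝ^(Option X)` -/
noncomputable def cc (l : X → ℕ) (x : X) : EuclideanSpace ℝ (Option X) :=
  WithLp.toLp 2 (fun i => i.elim 0 (AA l x))

lemma cc_dist (l : X → ℕ) (x y : X) : ‖cc l x - cc l y‖ ^ 2 = DD l x y := by
  rw [EuclideanSpace.norm_sq_eq, Fintype.sum_option]
  unfold DD cc
  simp

lemma order_iff (l : X → ℕ) (h1 : ∀ x y : X, x < y → l x < l y)
    (h2 : ∀ x y : X, l x + 2 ≤ l y → x < y) (x y : X) :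
    x ≤ y ↔ ‖cc l x - cc l y‖ + (l x + 1 : ℝ) ≤ (l y + 1 : ℝ) := by
  have hd := cc_dist l x y
  have hn := norm_nonneg (cc l x - cc l y)
  constructor
  · intro h
    rcases h.eq_or_lt with h | h
    · subst h; simp
    · have hlt := h1 x y h
      by_cases hadj : l y = l x + 1
      · have hD := DD_adj_comp l hadj h.le
        have : ‖cc l x - cc l y‖ ≤ 1 := by
          rw [← hd] at hD
          nlinarith
        rw [hadj]; push_cast; linarith
      · have h3 : l x + 2 ≤ l y := by omega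
        have hD := DD_le l x y
        have : ‖cc l x - cc l y‖ ≤ 2 := by
          rw [← hd] at hD
          nlinarith
        have h4 : (l x : ℝ) + 2 ≤ l y := by exact_mod_cast h3
        linarith
  · intro h
    by_contra hxy
    have hne : x ≠ y := fun e => hxy (e ▸ le_refl x)
    have hle : (l x : ℝ) ≤ l y := by linarith
    have hle' : l x ≤ l y := by exact_mod_cast hle
    have h3 : ¬ l x + 2 ≤ l y := fun h' => hxy (h2 x y h').le
    have h4 : l y = l x ∨ l y = l x + 1 := by omega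
    rcases h4 with h4 | h4
    · have hD := DD_pos l hne h4.symm
      rw [h4] at h
      have h5 : ‖cc l x - cc l y‖ = 0 := le_antisymm (by linarith) hn
      rw [h5] at hd
      rw [← hd] at hD
      norm_num at hD
    · have hyx : ¬ y ≤ x := by
        intro h'
        rcases h'.eq_or_lt with h' | h'
        · exact hne h'.symm
        · have := h1 y x h'; omega
      have hD := DD_adj_inc l h4 (by tauto)
      rw [h4] at h
      push_cast at h
      have h5 : ‖cc l x - cc l y‖ ≤ 1 := by linarith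
      rw [← hd] at hD
      nlinarith

/-- layered posets are sphere orders -/
theorem layered (l : X → ℕ) (h1 : ∀ x y : X, x < y → l x < l y)
    (h2 : ∀ x y : X, l x + 2 ≤ l y → x < y) :
    ∃ d : ℕ, 0 < d ∧ ∃ (c : X → EuclideanSpace ℝ (Fin d)) (r : X → ℝ), (∀ x, 0 < r x) ∧
      ∀ x y : X, x ≤ y ↔ Metric.closedBall (c x) (r x) ⊆ Metric.closedBall (c y) (r y) := by
  have hd : 0 < Fintype.card (Option X) := Fintype.card_pos
  let T : EuclideanSpace ℝ (Option X) ≃ₗᵢ[ℝ] EuclideanSpace ℝ (Fin (Fintype.card (Option X))) :=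
    LinearIsometryEquiv.piLpCongrLeft 2 ℝ ℝ (Fintype.equivFin (Option X))
  refine ⟨Fintype.card (Option X), hd, fun x => T (cc l x), fun x => (l x + 1 : ℝ),
    fun x => by positivity, fun x y => ?_⟩
  rw [order_iff l h1 h2 x y]
  have hT : ‖T (cc l x) - T (cc l y)‖ = ‖cc l x - cc l y‖ := by
    rw [← map_sub, T.norm_map]
  rw [← hT]
  constructor
  · intro h
    exact sub_ball h
  · intro h
    refine ball_sub (by positivity) ⟨EuclideanSpace.single ⟨0, hd⟩ 1, ?_⟩ h
    intro h0
    have := congrArg (fun v => ‖v‖) h0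
    simp at this

/-- posets without three-element chains are sphere orders -/
theorem height2 (h : ∀ x y z : X, ¬ (x < y ∧ y < z)) :
    ∃ d : ℕ, 0 < d ∧ ∃ (c : X → EuclideanSpace ℝ (Fin d)) (r : X → ℝ), (∀ x, 0 < r x) ∧
      ∀ x y : X, x ≤ y ↔ Metric.closedBall (c x) (r x) ⊆ Metric.closedBall (c y) (r y) := by
  classical
  refine layered (fun x => if ∃ y, y < x then 1 else 0) ?_ ?_
  · intro x y hxy
    have h1 : ∃ w, w < y := ⟨x, hxy⟩
    have h2 : ¬ ∃ w, w < x := by
      rintro ⟨w, hw⟩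
      exact h w x y ⟨hw, hxy⟩
    simp only [if_pos h1, if_neg h2]
    norm_num
  · intro x y hxy
    exfalso
    split_ifs at hxy <;> omega

end pos

end Pool.Agent.SO
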