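import Mathlib

set_option autoImplicit false

namespace Pool.Agent.SO

open Finset

variable {m : ℕ}

/-- the Hadamard sign of two subsets of `Fin m` -/
noncomputable def sg (a c : Finset (Fin m)) : ℝ := (-1) ^ (a ∩ c).card

lemma sg_cases (a c : Finset (Fin m)) : sg a c = 1 ∨ sg a c = -1 := neg_one_pow_eq_or ℝ _

lemma sg_even {a c : Finset (Fin m)} (h : Even (a ∩ c).card) : sg a c = 1 := h.neg_one_pow

lemma sg_not_even {a c : Finset (Fin m)} (h : ¬ Even (a ∩ c).card) : sg a c = -1 :=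
  (Nat.not_even_iff_odd.mp h).neg_one_pow

lemma sg_comm (a c : Finset (Fin m)) : sg a c = sg c a := by unfold sg; rw [Finset.inter_comm]

lemma sg_empty (a : Finset (Fin m)) : sg a ∅ = 1 := by simp [sg]

lemma card_symmDiff_par (x y : Finset (Fin m)) :
    ((-1 : ℝ)) ^ (symmDiff x y).card = (-1) ^ x.card * (-1) ^ y.card := by
  have h1 : (symmDiff x y).card = (x \ y).card + (y \ x).card := by
    rw [symmDiff_def, Finset.sup_eq_union, Finset.card_union_of_disjoint]
    exact disjoint_sdiff_sdiff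
  have h2 : x.card = (x \ y).card + (x ∩ y).card := by
    rw [add_comm]; exact (Finset.card_inter_add_card_sdiff x y).symm
  have h3 : y.card = (y \ x).card + (x ∩ y).card := by
    rw [add_comm, Finset.inter_comm]; exact (Finset.card_inter_add_card_sdiff y x).symm
  rw [h1, h2, h3]
  simp only [pow_add]
  have h4 : ((-1 : ℝ)) ^ (x ∩ y).card * (-1) ^ (x ∩ y).card = 1 := by
    rw [← pow_add, ← two_mul, pow_mul]; simp
  calc (-1 : ℝ) ^ (x \ y).card * (-1) ^ (y \ x).card
      = (-1) ^ (x \ y).card * (-1) ^ (y \ x).card * ((-1) ^ (x ∩ y).card * (-1) ^ (x ∩ y).card) := by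
        rw [h4, mul_one]
    _ = _ := by ring

lemma sg_mul (a a' c : Finset (Fin m)) : sg a c * sg a' c = sg (symmDiff a a') c := by
  unfold sg
  have : symmDiff a a' ∩ c = symmDiff (a ∩ c) (a' ∩ c) := by
    have := inf_symmDiff_distrib_right a a' c
    simpa [Finset.inf_eq_inter] using this
  rw [this, card_symmDiff_par]

lemma sum_sg {d : Finset (Fin m)} (hd : d ≠ ∅) : ∑ a, sg a d = 0 := by
  obtain ⟨i, hi⟩ := Finset.nonempty_iff_ne_empty.mpr hd
  have hinv : Function.Involutive (fun a : Finset (Fin m) => symmDiff a {i}) := by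
    intro a
    simp [symmDiff_assoc]
  have h1 : ∑ a, sg a d = ∑ a, sg (symmDiff a {i}) d :=
    (Equiv.sum_comp hinv.toPerm (fun a => sg a d)).symm
  have h2 : ∀ a : Finset (Fin m), sg (symmDiff a {i}) d = - sg a d := by
    intro a
    rw [← sg_mul]
    have : sg ({i} : Finset (Fin m)) d = -1 := by
      unfold sg
      rw [Finset.singleton_inter_of_mem hi]; simp
    rw [this]; ring
  rw [Finset.sum_congr rfl (fun a _ => h2 a), Finset.sum_neg_distrib] at h1
  linarith

lemma sum_sg_sg (c c' : Finset (Fin m)) :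
    ∑ a, sg a c * sg a c' = if c = c' then (2 : ℝ) ^ m else 0 := by
  have h : ∀ a : Finset (Fin m), sg a c * sg a c' = sg a (symmDiff c c') := by
    intro a
    rw [sg_comm a c, sg_comm a c', sg_mul, sg_comm]
  rw [Finset.sum_congr rfl (fun a _ => h a)]
  split_ifs with hc
  · subst hc
    simp [sg_empty, Finset.card_univ]
  · exact sum_sg (by rwa [Ne, Finset.bot_eq_empty.symm, symmDiff_eq_bot])

section vec
variable {X : Type*} [NormedAddCommGroup X] [InnerProductSpace ℝ X]

/-- the transform -/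
noncomputable def tr (v : Finset (Fin m) → X) (a : Finset (Fin m)) : X := ∑ c, sg a c • v c

lemma parseval (v : Finset (Fin m) → X) :
    ∑ a, ‖tr v a‖ ^ 2 = (2 : ℝ) ^ m * ∑ c, ‖v c‖ ^ 2 := by
  have h1 : ∀ a, ‖tr v a‖ ^ 2 = ∑ c, ∑ c', (sg a c * sg a c') * inner ℝ (v c) (v c') := by
    intro a
    rw [← real_inner_self_eq_norm_sq]
    unfold tr
    rw [sum_inner]
    refine Finset.sum_congr rfl (fun c _ => ?_)
    rw [inner_sum]
    refine Finset.sum_congr rfl (fun c' _ => ?_)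
    rw [real_inner_smul_left, real_inner_smul_right]; ring
  rw [Finset.sum_congr rfl (fun a _ => h1 a), Finset.sum_comm, Finset.mul_sum]
  refine Finset.sum_congr rfl (fun c _ => ?_)
  rw [Finset.sum_comm]
  have : ∀ c', ∑ a, (sg a c * sg a c') * inner ℝ (v c) (v c') =
      (if c = c' then (2 : ℝ) ^ m else 0) * inner ℝ (v c) (v c') := by
    intro c'
    rw [← Finset.sum_mul, sum_sg_sg]
  rw [Finset.sum_congr rfl (fun c' _ => this c')]
  simp [real_inner_self_eq_norm_sq]

lemma card_V : (Fintype.card (Finset (Fin m)) : ℝ) = 2 ^ m := by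
  rw [Fintype.card_finset, Fintype.card_fin]; norm_cast

/-- L1 bound for the transform of unit vectors -/
lemma tr_L1 (v : Finset (Fin m) → X) (hv : ∀ c, ‖v c‖ = 1) {s : ℝ} (hs0 : 0 ≤ s)
    (hs : s ^ 2 = 2 ^ m) : ∑ a, ‖tr v a‖ ≤ 2 ^ m * s := by
  have h1 := parseval v
  have h2 : ∑ c, ‖v c‖ ^ 2 = (2 : ℝ) ^ m := by
    simp only [hv, one_pow, Finset.sum_const, Finset.card_univ, nsmul_eq_mul, mul_one]
    exact card_V
  rw [h2] at h1
  have h3 : (∑ a, ‖tr v a‖) ^ 2 ≤ (Fintype.card (Finset (Fin m)) : ℝ) * ∑ a, ‖tr v a‖ ^ 2 := by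
    have := sq_sum_le_card_mul_sum_sq (s := (Finset.univ : Finset (Finset (Fin m))))
      (f := fun a => ‖tr v a‖)
    simpa [Finset.card_univ] using this
  rw [h1, card_V] at h3
  have h4 : (∑ a, ‖tr v a‖) ^ 2 ≤ (2 ^ m * s) ^ 2 := by
    rw [mul_pow, hs]
    calc _ ≤ _ := h3
      _ = _ := by ring
  exact le_of_sq_le_sq h4 (by positivity)

/-- discrepancy bound -/
lemma disc (v w : Finset (Fin m) → X) (hv : ∀ c, ‖v c‖ = 1) (hw : ∀ c, ‖w c‖ = 1) {s : ℝ}
    (hs0 : 0 ≤ s) (hs : s ^ 2 = 2 ^ m) :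
    |∑ a, ∑ c, sg a c * inner ℝ (v a) (w c)| ≤ 2 ^ m * s := by
  have h1 : ∀ a, ∑ c, sg a c * inner ℝ (v a) (w c) = inner ℝ (v a) (tr w a) := by
    intro a
    unfold tr
    rw [inner_sum]
    refine Finset.sum_congr rfl (fun c _ => ?_)
    rw [real_inner_smul_right]
  rw [Finset.sum_congr rfl (fun a _ => h1 a)]
  calc |∑ a, inner ℝ (v a) (tr w a)| ≤ ∑ a, |inner ℝ (v a) (tr w a)| :=
        Finset.abs_sum_le_sum_abs _ _
    _ ≤ ∑ a, ‖tr w a‖ := by
        refine Finset.sum_le_sum (fun a _ => ?_)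
        have := abs_real_inner_le_norm (v a) (tr w a)
        rwa [hv a, one_mul] at this
    _ ≤ _ := tr_L1 w hw hs0 hs

end vec

end Pool.Agent.SO
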