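import Pool.Agent.SO.Bal
import Pool.Agent.SO.Had

set_option autoImplicit false

namespace Pool.Agent.SO

open Finset

section core
variable {X : Type*} [NormedAddCommGroup X] [InnerProductSpace ℝ X] {m : ℕ}

/-- time part as a complex number -/
noncomputable def cz (p : ℝ × ℝ × X) : ℂ := ⟨p.1, p.2.1⟩

lemma inner_cz (p q : ℝ × ℝ × X) : inner ℝ (cz p) (cz q) = p.1 * q.1 + p.2.1 * q.2.1 := by
  rw [Complex.inner]
  simp [cz]
  try ring

lemma norm_cz (p : ℝ × ℝ × X) : ‖cz p‖ ^ 2 = rho2 p := by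
  rw [← real_inner_self_eq_norm_sq, inner_cz]; unfold rho2; ring

lemma BB_eq (p q : ℝ × ℝ × X) : BB p q = inner ℝ (cz p) (cz q) - inner ℝ p.2.2 q.2.2 := by
  rw [inner_cz]; rfl

/-- both parts are unit vectors -/
def Nm (p : ℝ × ℝ × X) : Prop := rho2 p = 1 ∧ ‖p.2.2‖ = 1

lemma Nm.cz {p : ℝ × ℝ × X} (h : Nm p) : ‖cz p‖ = 1 := by
  have := norm_cz p
  rw [h.1] at this
  nlinarith [norm_nonneg (SO.cz p)]

lemma Nm.abs_le {p q : ℝ × ℝ × X} (hp : Nm p) (hq : Nm q) : |BB p q| ≤ 2 := by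
  rw [BB_eq]
  have h1 := abs_real_inner_le_norm (SO.cz p) (SO.cz q)
  have h2 := abs_real_inner_le_norm p.2.2 q.2.2
  rw [hp.cz, hq.cz, one_mul] at h1
  rw [hp.2, hq.2, one_mul] at h2
  have := abs_sub (inner ℝ (SO.cz p) (SO.cz q)) (inner ℝ p.2.2 q.2.2)
  linarith

variable (P R : Finset (Fin m) → ℝ × ℝ × X)

/-- total absolute value of the cross block -/
lemma cross_L1 (hP : ∀ a, Nm (P a)) (hR : ∀ c, Nm (R c))
    (hsg : ∀ a c, |BB (P a) (R c)| = - (sg a c * BB (P a) (R c)))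
    {s : ℝ} (hs0 : 0 ≤ s) (hs : s ^ 2 = 2 ^ m) :
    ∑ a, ∑ c, |BB (P a) (R c)| ≤ 2 * (2 ^ m * s) := by
  have h1 := disc (fun a => cz (P a)) (fun c => cz (R c)) (fun a => (hP a).cz)
    (fun c => (hR c).cz) hs0 hs
  have h2 := disc (fun a => (P a).2.2) (fun c => (R c).2.2) (fun a => (hP a).2)
    (fun c => (hR c).2) hs0 hs
  have h3 : ∑ a, ∑ c, |BB (P a) (R c)| =
      - (∑ a, ∑ c, sg a c * inner ℝ (cz (P a)) (cz (R c)))
        + ∑ a, ∑ c, sg a c * inner ℝ (P a).2.2 (R c).2.2 := by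
    rw [← Finset.sum_neg_distrib, ← Finset.sum_add_distrib]
    refine Finset.sum_congr rfl (fun a _ => ?_)
    rw [← Finset.sum_neg_distrib, ← Finset.sum_add_distrib]
    refine Finset.sum_congr rfl (fun c _ => ?_)
    rw [hsg, BB_eq]; ring
  rw [h3]
  have h4 := neg_abs_le (∑ a, ∑ c, sg a c * inner ℝ (cz (P a)) (cz (R c)))
  have h5 := le_abs_self (∑ a, ∑ c, sg a c * inner ℝ (P a).2.2 (R c).2.2)
  linarith

lemma cross_L2 (hP : ∀ a, Nm (P a)) (hR : ∀ c, Nm (R c))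
    (hsg : ∀ a c, |BB (P a) (R c)| = - (sg a c * BB (P a) (R c)))
    {s : ℝ} (hs0 : 0 ≤ s) (hs : s ^ 2 = 2 ^ m) :
    ∑ a, ∑ c, (BB (P a) (R c)) ^ 2 ≤ 4 * (2 ^ m * s) := by
  have h1 := cross_L1 P R hP hR hsg hs0 hs
  have h2 : ∑ a, ∑ c, (BB (P a) (R c)) ^ 2 ≤ ∑ a, ∑ c, 2 * |BB (P a) (R c)| := by
    refine Finset.sum_le_sum (fun a _ => Finset.sum_le_sum (fun c _ => ?_))
    have := (hP a).abs_le (hR c)
    rw [← sq_abs, sq]
    exact mul_le_mul_of_nonneg_right this (abs_nonneg _)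
  have h3 : ∑ a, ∑ c, 2 * |BB (P a) (R c)| = 2 * ∑ a, ∑ c, |BB (P a) (R c)| := by
    rw [Finset.mul_sum]
    refine Finset.sum_congr rfl (fun a _ => ?_)
    rw [Finset.mul_sum]
  linarith

/-- the mixed sum -/
lemma mixed {I J : Type*} [Fintype I] [Fintype J] (P : I → ℝ × ℝ × X) (R : J → ℝ × ℝ × X) :
    ∑ a, ∑ c, ((P a).1 * (R c).1 + (P a).2.1 * (R c).2.1) * inner ℝ (P a).2.2 (R c).2.2 =
    inner ℝ (∑ a, (P a).1 • (P a).2.2) (∑ c, (R c).1 • (R c).2.2)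
      + inner ℝ (∑ a, (P a).2.1 • (P a).2.2) (∑ c, (R c).2.1 • (R c).2.2) := by
  rw [sum_inner, sum_inner, ← Finset.sum_add_distrib]
  refine Finset.sum_congr rfl (fun a _ => ?_)
  rw [inner_sum, inner_sum, ← Finset.sum_add_distrib]
  refine Finset.sum_congr rfl (fun c _ => ?_)
  simp only [real_inner_smul_left, real_inner_smul_right]
  ring

/-- second moment of the time part -/
lemma time_moment (hP : ∀ a, Nm (P a)) :
    (2 ^ m : ℝ) ^ 2 / 2 ≤ ∑ a, ∑ a', ((P a).1 * (P a').1 + (P a).2.1 * (P a').2.1) ^ 2 := by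
  have h1 : ∑ a, ∑ a', ((P a).1 * (P a').1 + (P a).2.1 * (P a').2.1) ^ 2 =
      (∑ a, (P a).1 ^ 2) ^ 2 + 2 * (∑ a, (P a).1 * (P a).2.1) ^ 2 + (∑ a, (P a).2.1 ^ 2) ^ 2 := by
    rw [sq (∑ a, (P a).1 ^ 2), sq (∑ a, (P a).1 * (P a).2.1), sq (∑ a, (P a).2.1 ^ 2),
      Finset.sum_mul_sum, Finset.sum_mul_sum, Finset.sum_mul_sum, Finset.mul_sum,
      ← Finset.sum_add_distrib, ← Finset.sum_add_distrib]
    refine Finset.sum_congr rfl (fun a _ => ?_)
    rw [Finset.mul_sum, ← Finset.sum_add_distrib, ← Finset.sum_add_distrib]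
    refine Finset.sum_congr rfl (fun c _ => ?_)
    ring
  have h2 : ∑ a, (P a).1 ^ 2 + ∑ a, (P a).2.1 ^ 2 = (2 : ℝ) ^ m := by
    rw [← Finset.sum_add_distrib, ← card_V]
    have : ∀ a, (P a).1 ^ 2 + (P a).2.1 ^ 2 = 1 := fun a => (hP a).1
    simp [this]
  rw [h1, ← h2]
  nlinarith [sq_nonneg (∑ a, (P a).1 * (P a).2.1),
    sq_nonneg (∑ a, (P a).1 ^ 2 - ∑ a, (P a).2.1 ^ 2)]

/-- norm bound for the imbalance vector of one class -/
lemma T_norm (w : Finset (Fin m) → ℝ) (x : Finset (Fin m) → X) (hw : ∀ a, |w a| ≤ 1)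
    (hx : ∀ a, ‖x a‖ = 1) : ‖∑ a, w a • x a‖ ≤ 2 ^ m := by
  refine (norm_sum_le _ _).trans ?_
  rw [← card_V, ← Finset.card_univ]
  calc ∑ a, ‖w a • x a‖ ≤ ∑ _a : Finset (Fin m), (1 : ℝ) := by
        refine Finset.sum_le_sum (fun a _ => ?_)
        rw [norm_smul, hx, mul_one]
        exact hw a
    _ = _ := by simp

lemma Nm.fst {p : ℝ × ℝ × X} (h : Nm p) : |p.1| ≤ 1 := by
  have := h.1
  unfold rho2 at this
  rw [_root_.abs_le]
  constructor <;> nlinarith [sq_nonneg p.2.1]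

lemma Nm.snd {p : ℝ × ℝ × X} (h : Nm p) : |p.2.1| ≤ 1 := by
  have := h.1
  unfold rho2 at this
  rw [_root_.abs_le]
  constructor <;> nlinarith [sq_nonneg p.1]

/-- one-term balancing estimate -/
lemma bal_term {T T' : X} {N : ℝ} (hN : ‖T‖ ≤ N) (h : ‖T + T'‖ ≤ 1) :
    ‖T‖ ^ 2 - N ≤ - inner ℝ T T' := by
  have h1 : inner ℝ T (T + T') = ‖T‖ ^ 2 + inner ℝ T T' := by
    rw [inner_add_right, real_inner_self_eq_norm_sq]
  have h2 : inner ℝ T (T + T') ≤ ‖T‖ * ‖T + T'‖ := real_inner_le_norm _ _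
  have h3 : ‖T‖ * ‖T + T'‖ ≤ N * 1 :=
    mul_le_mul hN h (norm_nonneg _) ((norm_nonneg _).trans hN)
  linarith

/-- lower bound for the sum of the entries of a diagonal block -/
lemma block_sum (hP : ∀ a, Nm (P a)) (hR : ∀ c, Nm (R c))
    (hsg : ∀ a c, |BB (P a) (R c)| = - (sg a c * BB (P a) (R c)))
    (hAA : ∀ a a', 0 ≤ BB (P a) (P a'))
    (hb1 : ‖(∑ a, (P a).1 • (P a).2.2) + ∑ c, (R c).1 • (R c).2.2‖ ≤ 1)
    (hb2 : ‖(∑ a, (P a).2.1 • (P a).2.2) + ∑ c, (R c).2.1 • (R c).2.2‖ ≤ 1)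
    {s : ℝ} (hs0 : 0 ≤ s) (hs : s ^ 2 = 2 ^ m) :
    (2 ^ m : ℝ) ^ 2 / 4 - 2 * (2 ^ m * s) - 2 * 2 ^ m ≤ ∑ a, ∑ a', BB (P a) (P a') := by
  set T1 := ∑ a, (P a).1 • (P a).2.2 with hT1
  set T2 := ∑ a, (P a).2.1 • (P a).2.2 with hT2
  have hL2 := cross_L2 P R hP hR hsg hs0 hs
  have hn1 : ‖T1‖ ≤ 2 ^ m := T_norm (fun a => (P a).1) (fun a => (P a).2.2)
    (fun a => (hP a).fst) (fun a => (hP a).2)
  have hn2 : ‖T2‖ ≤ 2 ^ m := T_norm (fun a => (P a).2.1) (fun a => (P a).2.2)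
    (fun a => (hP a).snd) (fun a => (hP a).2)
  have hq1 := bal_term hn1 hb1
  have hq2 := bal_term hn2 hb2
  have hmix := mixed P R
  rw [← hT1, ← hT2] at hmix
  have hmixA := mixed P P
  rw [← hT1, ← hT2, real_inner_self_eq_norm_sq, real_inner_self_eq_norm_sq] at hmixA
  have hlow : -2 * ∑ a, ∑ c, ((P a).1 * (R c).1 + (P a).2.1 * (R c).2.1) *
      inner ℝ (P a).2.2 (R c).2.2 ≤ ∑ a, ∑ c, (BB (P a) (R c)) ^ 2 := by
    rw [Finset.mul_sum]
    refine Finset.sum_le_sum (fun a _ => ?_)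
    rw [Finset.mul_sum]
    refine Finset.sum_le_sum (fun c _ => ?_)
    unfold BB
    nlinarith [sq_nonneg ((P a).1 * (R c).1 + (P a).2.1 * (R c).2.1),
      sq_nonneg (inner ℝ (P a).2.2 (R c).2.2 : ℝ)]
  rw [hmix] at hlow
  have htm := time_moment P hP
  have hA2 : ∑ a, ∑ a', ((P a).1 * (P a').1 + (P a).2.1 * (P a').2.1) ^ 2 -
      2 * ∑ a, ∑ a', ((P a).1 * (P a').1 + (P a).2.1 * (P a').2.1) *
      inner ℝ (P a).2.2 (P a').2.2 ≤ ∑ a, ∑ a', (BB (P a) (P a')) ^ 2 := by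
    rw [Finset.mul_sum, ← Finset.sum_sub_distrib]
    refine Finset.sum_le_sum (fun a _ => ?_)
    rw [Finset.mul_sum, ← Finset.sum_sub_distrib]
    refine Finset.sum_le_sum (fun c _ => ?_)
    unfold BB
    nlinarith [sq_nonneg (inner ℝ (P a).2.2 (P c).2.2 : ℝ)]
  rw [hmixA] at hA2
  have hA3 : ∑ a, ∑ a', (BB (P a) (P a')) ^ 2 ≤ 2 * ∑ a, ∑ a', BB (P a) (P a') := by
    rw [Finset.mul_sum]
    refine Finset.sum_le_sum (fun a _ => ?_)
    rw [Finset.mul_sum]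
    refine Finset.sum_le_sum (fun c _ => ?_)
    have h1 := hAA a c
    have h2 := (hP a).abs_le (hP c)
    rw [abs_of_nonneg h1] at h2
    rw [sq]
    exact mul_le_mul_of_nonneg_right h2 h1
  linarith

/-- indicator of the common even class -/
noncomputable def wt (a a' c : Finset (Fin m)) : ℝ := (1 + sg a c) * (1 + sg a' c) / 4

lemma wt_exp (a a' c : Finset (Fin m)) :
    wt a a' c = (1 / 4) * (1 + sg a c + sg a' c + sg (symmDiff a a') c) := by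
  unfold wt
  rw [← sg_mul]; ring

lemma wt_cases (a a' c : Finset (Fin m)) :
    (wt a a' c = 1 ∧ sg a c = 1 ∧ sg a' c = 1) ∨ wt a a' c = 0 := by
  unfold wt
  rcases sg_cases a c with h | h <;> rcases sg_cases a' c with h' | h' <;> rw [h, h'] <;> norm_num

variable {Y : Type*} [NormedAddCommGroup Y] [InnerProductSpace ℝ Y]

noncomputable def dl (z : Finset (Fin m) → Y) (a a' : Finset (Fin m)) : Y :=
  tr z a + tr z a' + tr z (symmDiff a a')

lemma wsum (z : Finset (Fin m) → Y) (a a' : Finset (Fin m)) :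
    ∑ c, wt a a' c • z c = (1 / 4 : ℝ) • (∑ c, z c + dl z a a') := by
  unfold dl tr
  rw [← Finset.sum_add_distrib, ← Finset.sum_add_distrib, ← Finset.sum_add_distrib,
    Finset.smul_sum]
  refine Finset.sum_congr rfl (fun c _ => ?_)
  rw [wt_exp]
  module

lemma tr_norm (z : Finset (Fin m) → Y) (hz : ∀ c, ‖z c‖ = 1) (a : Finset (Fin m)) :
    ‖tr z a‖ ≤ 2 ^ m := by
  unfold tr
  refine T_norm (fun c => sg a c) z (fun c => ?_) hz
  rcases sg_cases a c with h | h <;> rw [h] <;> norm_num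

lemma dl_norm (z : Finset (Fin m) → Y) (hz : ∀ c, ‖z c‖ = 1) (a a' : Finset (Fin m)) :
    ‖dl z a a'‖ ≤ 3 * 2 ^ m := by
  unfold dl
  have h1 := tr_norm z hz a
  have h2 := tr_norm z hz a'
  have h3 := tr_norm z hz (symmDiff a a')
  have h4 := norm_add_le (tr z a + tr z a') (tr z (symmDiff a a'))
  have h5 := norm_add_le (tr z a) (tr z a')
  linarith

lemma dl_L1 (z : Finset (Fin m) → Y) (hz : ∀ c, ‖z c‖ = 1) {s : ℝ} (hs0 : 0 ≤ s)
    (hs : s ^ 2 = 2 ^ m) : ∑ a, ∑ a', ‖dl z a a'‖ ≤ 3 * (2 ^ m * (2 ^ m * s)) := by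
  have h0 := tr_L1 z hz hs0 hs
  set L := ∑ a, ‖tr z a‖ with hL
  have h1 : ∀ a : Finset (Fin m), ∑ a', ‖tr z (symmDiff a a')‖ = L := by
    intro a
    have hinv : Function.Involutive (fun b : Finset (Fin m) => symmDiff a b) := by
      intro b
      simp
    exact Equiv.sum_comp hinv.toPerm (fun b => ‖tr z b‖)
  have h2 : ∀ a : Finset (Fin m), ∑ a', ‖dl z a a'‖ ≤ 2 ^ m * ‖tr z a‖ + L + L := by
    intro a
    calc ∑ a', ‖dl z a a'‖ ≤ ∑ a', (‖tr z a‖ + ‖tr z a'‖ + ‖tr z (symmDiff a a')‖) := by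
          refine Finset.sum_le_sum (fun a' _ => ?_)
          unfold dl
          have h4 := norm_add_le (tr z a + tr z a') (tr z (symmDiff a a'))
          have h5 := norm_add_le (tr z a) (tr z a')
          linarith
      _ = _ := by
          rw [Finset.sum_add_distrib, Finset.sum_add_distrib, h1 a, Finset.sum_const,
            Finset.card_univ, nsmul_eq_mul, card_V]
  calc ∑ a, ∑ a', ‖dl z a a'‖ ≤ ∑ a : Finset (Fin m), (2 ^ m * ‖tr z a‖ + L + L) :=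
        Finset.sum_le_sum (fun a _ => h2 a)
    _ = 3 * (2 ^ m * L) := by
        rw [Finset.sum_add_distrib, Finset.sum_add_distrib, ← Finset.mul_sum, ← hL,
          Finset.sum_const, Finset.card_univ, nsmul_eq_mul, card_V]
        ring
    _ ≤ _ := by
        have : (2 ^ m : ℝ) * L ≤ 2 ^ m * (2 ^ m * s) := mul_le_mul_of_nonneg_left h0 (by positivity)
        linarith

lemma quad {w : Finset (Fin m) → ℝ} :
    ∑ c, ∑ c', w c * w c' * BB (R c) (R c') =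
      ‖∑ c, w c • cz (R c)‖ ^ 2 - ‖∑ c, w c • (R c).2.2‖ ^ 2 := by
  rw [← real_inner_self_eq_norm_sq, ← real_inner_self_eq_norm_sq, sum_inner, sum_inner,
    ← Finset.sum_sub_distrib]
  refine Finset.sum_congr rfl (fun c _ => ?_)
  rw [inner_sum, inner_sum, ← Finset.sum_sub_distrib]
  refine Finset.sum_congr rfl (fun c' _ => ?_)
  rw [BB_eq]
  simp only [real_inner_smul_left, real_inner_smul_right]
  ring

lemma G_lower (hR : ∀ c, Nm (R c)) (a a' : Finset (Fin m)) :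
    (1 / 16) * ((∑ c, ∑ c', BB (R c) (R c'))
      - 2 * 2 ^ m * ‖dl (fun c => cz (R c)) a a'‖ - 5 * 2 ^ m * ‖dl (fun c => (R c).2.2) a a'‖) ≤
    ∑ c, ∑ c', wt a a' c * wt a a' c' * BB (R c) (R c') := by
  rw [quad R (w := fun c => wt a a' c), wsum (fun c => cz (R c)), wsum (fun c => (R c).2.2)]
  have h0 := quad R (w := fun _ => 1)
  simp only [one_mul, one_smul] at h0
  rw [h0]
  set Z := ∑ c, cz (R c) with hZ
  set W := ∑ c, (R c).2.2 with hW
  set d := dl (fun c => cz (R c)) a a' with hd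
  set e := dl (fun c => (R c).2.2) a a' with he
  have hZn : ‖Z‖ ≤ 2 ^ m := by
    have := T_norm (fun _ => 1) (fun c => cz (R c)) (fun _ => by simp) (fun c => (hR c).cz)
    simpa using this
  have hWn : ‖W‖ ≤ 2 ^ m := by
    have := T_norm (fun _ => 1) (fun c => (R c).2.2) (fun _ => by simp) (fun c => (hR c).2)
    simpa using this
  have hen : ‖e‖ ≤ 3 * 2 ^ m := dl_norm (fun c => (R c).2.2) (fun c => (hR c).2) a a'
  have k1 : ‖(1 / 4 : ℝ) • (Z + d)‖ ^ 2 = (1 / 16) * ‖Z + d‖ ^ 2 := by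
    rw [norm_smul, mul_pow, Real.norm_eq_abs, sq_abs]; ring
  have k2 : ‖(1 / 4 : ℝ) • (W + e)‖ ^ 2 = (1 / 16) * ‖W + e‖ ^ 2 := by
    rw [norm_smul, mul_pow, Real.norm_eq_abs, sq_abs]; ring
  rw [k1, k2]
  have k3 : ‖Z + d‖ ^ 2 = ‖Z‖ ^ 2 + 2 * inner ℝ Z d + ‖d‖ ^ 2 := norm_add_sq_real Z d
  have k4 : ‖W + e‖ ^ 2 = ‖W‖ ^ 2 + 2 * inner ℝ W e + ‖e‖ ^ 2 := norm_add_sq_real W e
  have k5 : -(2 ^ m * ‖d‖) ≤ inner ℝ Z d := by
    have h1 := neg_abs_le (inner ℝ Z d)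
    have h2 := abs_real_inner_le_norm Z d
    have h3 := mul_le_mul_of_nonneg_right hZn (norm_nonneg d)
    linarith
  have k6 : inner ℝ W e ≤ 2 ^ m * ‖e‖ := by
    have h2 := real_inner_le_norm W e
    have h3 := mul_le_mul_of_nonneg_right hWn (norm_nonneg e)
    linarith
  have k7 : ‖e‖ ^ 2 ≤ 3 * 2 ^ m * ‖e‖ := by
    rw [sq]; exact mul_le_mul_of_nonneg_right hen (norm_nonneg e)
  nlinarith [sq_nonneg ‖d‖]

/-- upper bound through the middle elements -/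
lemma upper (hP : ∀ a, Nm (P a)) (hR : ∀ c, Nm (R c))
    (hsg : ∀ a c, |BB (P a) (R c)| = - (sg a c * BB (P a) (R c)))
    (hb : ∀ a a' c c', sg a c = 1 → sg a c' = 1 → sg a' c = 1 → sg a' c' = 1 →
      BB (P a) (P a') * BB (R c) (R c') ≤
        -(BB (P a) (R c) + BB (P a) (R c') + BB (P a') (R c) + BB (P a') (R c')))
    {s : ℝ} (hs0 : 0 ≤ s) (hs : s ^ 2 = 2 ^ m) :
    ∑ a, ∑ a', BB (P a) (P a') * (∑ c, ∑ c', wt a a' c * wt a a' c' * BB (R c) (R c')) ≤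
      8 * ((2 ^ m) ^ 2 * (2 ^ m * s)) := by
  have h1 : ∀ a a' c c', BB (P a) (P a') * (wt a a' c * wt a a' c' * BB (R c) (R c')) ≤
      |BB (P a) (R c)| + |BB (P a) (R c')| + |BB (P a') (R c)| + |BB (P a') (R c')| := by
    intro a a' c c'
    have e1 := abs_nonneg (BB (P a) (R c))
    have e2 := abs_nonneg (BB (P a) (R c'))
    have e3 := abs_nonneg (BB (P a') (R c))
    have e4 := abs_nonneg (BB (P a') (R c'))
    rcases wt_cases a a' c with ⟨hw, k1, k2⟩ | hw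
    · rcases wt_cases a a' c' with ⟨hw', k3, k4⟩ | hw'
      · rw [hw, hw']
        have := hb a a' c c' k1 k3 k2 k4
        have f1 := neg_abs_le (BB (P a) (R c))
        have f2 := neg_abs_le (BB (P a) (R c'))
        have f3 := neg_abs_le (BB (P a') (R c))
        have f4 := neg_abs_le (BB (P a') (R c'))
        linarith
      · rw [hw']; simp only [mul_zero, zero_mul]; linarith
    · rw [hw]; simp only [mul_zero, zero_mul]; linarith
  set L := ∑ a, ∑ c, |BB (P a) (R c)| with hL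
  have hLb : L ≤ 2 * (2 ^ m * s) := cross_L1 P R hP hR hsg hs0 hs
  calc ∑ a, ∑ a', BB (P a) (P a') * (∑ c, ∑ c', wt a a' c * wt a a' c' * BB (R c) (R c'))
      = ∑ a, ∑ a', ∑ c, ∑ c', BB (P a) (P a') * (wt a a' c * wt a a' c' * BB (R c) (R c')) := by
        refine Finset.sum_congr rfl (fun a _ => Finset.sum_congr rfl (fun a' _ => ?_))
        rw [Finset.mul_sum]
        refine Finset.sum_congr rfl (fun c _ => ?_)
        rw [Finset.mul_sum]
    _ ≤ ∑ a, ∑ a', ∑ c, ∑ c', (|BB (P a) (R c)| + |BB (P a) (R c')| + |BB (P a') (R c)|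
          + |BB (P a') (R c')|) :=
        Finset.sum_le_sum (fun a _ => Finset.sum_le_sum (fun a' _ => Finset.sum_le_sum
          (fun c _ => Finset.sum_le_sum (fun c' _ => h1 a a' c c'))))
    _ = 4 * ((2 ^ m) ^ 2 * L) := by
        simp only [Finset.sum_add_distrib, Finset.sum_const, Finset.card_univ, nsmul_eq_mul,
          card_V]
        simp only [← Finset.mul_sum, ← hL]
        ring
    _ ≤ 8 * ((2 ^ m) ^ 2 * (2 ^ m * s)) := by
        have : ((2 : ℝ) ^ m) ^ 2 * L ≤ (2 ^ m) ^ 2 * (2 * (2 ^ m * s)) :=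
          mul_le_mul_of_nonneg_left hLb (by positivity)
        linarith

lemma lower (hP : ∀ a, Nm (P a)) (hR : ∀ c, Nm (R c))
    (hAA : ∀ a a', 0 ≤ BB (P a) (P a'))
    {s : ℝ} (hs0 : 0 ≤ s) (hs : s ^ 2 = 2 ^ m) :
    (1 / 16) * ((∑ a, ∑ a', BB (P a) (P a')) * (∑ c, ∑ c', BB (R c) (R c'))
      - 42 * ((2 ^ m) ^ 2 * (2 ^ m * s))) ≤
    ∑ a, ∑ a', BB (P a) (P a') * (∑ c, ∑ c', wt a a' c * wt a a' c' * BB (R c) (R c')) := by
  set SC := ∑ c, ∑ c', BB (R c) (R c') with hSC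
  have hd1 := dl_L1 (fun c => cz (R c)) (fun c => (hR c).cz) hs0 hs
  have hd2 := dl_L1 (fun c => (R c).2.2) (fun c => (hR c).2) hs0 hs
  have h1 : ∀ a a', (1 / 16) * (BB (P a) (P a') * SC - 4 * 2 ^ m *
      ‖dl (fun c => cz (R c)) a a'‖ - 10 * 2 ^ m * ‖dl (fun c => (R c).2.2) a a'‖) ≤
      BB (P a) (P a') * (∑ c, ∑ c', wt a a' c * wt a a' c' * BB (R c) (R c')) := by
    intro a a'
    have g := G_lower R hR a a'
    have k0 := hAA a a'
    have k2 := (hP a).abs_le (hP a')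
    rw [abs_of_nonneg k0] at k2
    have g2 := mul_le_mul_of_nonneg_left g k0
    refine le_trans ?_ g2
    have m1 : 0 ≤ (2 : ℝ) ^ m * ‖dl (fun c => cz (R c)) a a'‖ := by positivity
    have m2 : 0 ≤ (2 : ℝ) ^ m * ‖dl (fun c => (R c).2.2) a a'‖ := by positivity
    have n1 := mul_le_mul_of_nonneg_right k2 m1
    have n2 := mul_le_mul_of_nonneg_right k2 m2
    rw [← hSC]
    nlinarith
  refine le_trans ?_ (Finset.sum_le_sum (fun a _ => Finset.sum_le_sum (fun a' _ => h1 a a')))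
  have e : ∑ a, ∑ a', (1 / 16) * (BB (P a) (P a') * SC - 4 * 2 ^ m *
      ‖dl (fun c => cz (R c)) a a'‖ - 10 * 2 ^ m * ‖dl (fun c => (R c).2.2) a a'‖) =
      (1 / 16) * ((∑ a, ∑ a', BB (P a) (P a')) * SC
        - 4 * 2 ^ m * (∑ a, ∑ a', ‖dl (fun c => cz (R c)) a a'‖)
        - 10 * 2 ^ m * (∑ a, ∑ a', ‖dl (fun c => (R c).2.2) a a'‖)) := by
    simp only [← Finset.mul_sum, Finset.sum_sub_distrib, ← Finset.sum_mul]
  rw [e]
  have q1 : (2 : ℝ) ^ m * (∑ a, ∑ a', ‖dl (fun c => cz (R c)) a a'‖) ≤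
      2 ^ m * (3 * (2 ^ m * (2 ^ m * s))) := mul_le_mul_of_nonneg_left hd1 (by positivity)
  have q2 : (2 : ℝ) ^ m * (∑ a, ∑ a', ‖dl (fun c => (R c).2.2) a a'‖) ≤
      2 ^ m * (3 * (2 ^ m * (2 ^ m * s))) := mul_le_mul_of_nonneg_left hd2 (by positivity)
  nlinarith

end core

section final
variable {X : Type*} [NormedAddCommGroup X] [InnerProductSpace ℝ X] {m : ℕ}

lemma sg_sym (P R : Finset (Fin m) → ℝ × ℝ × X)
    (hsg : ∀ a c, |BB (P a) (R c)| = - (sg a c * BB (P a) (R c))) (a c : Finset (Fin m)) :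
    |BB (R a) (P c)| = - (sg a c * BB (R a) (P c)) := by
  have e : BB (R a) (P c) = BB (P c) (R a) := by
    unfold BB
    rw [real_inner_comm]; ring
  rw [e, sg_comm]; exact hsg c a

lemma num_false (N s SA SC : ℝ) (hs : 4096 ≤ s) (hN : s ^ 2 = N)
    (hA : N ^ 2 / 4 - 2 * (N * s) - 2 * N ≤ SA) (hC : N ^ 2 / 4 - 2 * (N * s) - 2 * N ≤ SC)
    (hU : (1 / 16) * (SA * SC - 42 * (N ^ 2 * (N * s))) ≤ 8 * (N ^ 2 * (N * s))) : False := by
  have hNpos : 0 < N := by rw [← hN]; positivity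
  have h1 : 4096 * s ≤ N := by rw [← hN, sq]; exact mul_le_mul_of_nonneg_right hs (by linarith)
  have h2 : (249 / 1000) * N ^ 2 ≤ N ^ 2 / 4 - 2 * (N * s) - 2 * N := by
    have : N * (2 * s + 2) ≤ N * (N / 1000) := mul_le_mul_of_nonneg_left (by linarith) hNpos.le
    nlinarith
  have h3 := h2.trans hA
  have h4 := h2.trans hC
  have h5 : ((249 / 1000) * N ^ 2) * ((249 / 1000) * N ^ 2) ≤ SA * SC :=
    mul_le_mul h3 h4 (by positivity) (le_trans (by positivity) h3)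
  have h6 : N ^ 3 * (N * (62001 / 1000000)) ≤ N ^ 3 * (170 * s) := by nlinarith
  have h7 := le_of_mul_le_mul_left h6 (by positivity)
  nlinarith

theorem core_false (P R : Finset (Fin m) → ℝ × ℝ × X)
    (hP : ∀ a, Nm (P a)) (hR : ∀ c, Nm (R c))
    (hsg : ∀ a c, |BB (P a) (R c)| = - (sg a c * BB (P a) (R c)))
    (hAA : ∀ a a', 0 ≤ BB (P a) (P a')) (hCC : ∀ c c', 0 ≤ BB (R c) (R c'))
    (hb : ∀ a a' c c', sg a c = 1 → sg a c' = 1 → sg a' c = 1 → sg a' c' = 1 →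
      BB (P a) (P a') * BB (R c) (R c') ≤
        -(BB (P a) (R c) + BB (P a) (R c') + BB (P a') (R c) + BB (P a') (R c')))
    (hb1 : ‖(∑ a, (P a).1 • (P a).2.2) + ∑ c, (R c).1 • (R c).2.2‖ ≤ 1)
    (hb2 : ‖(∑ a, (P a).2.1 • (P a).2.2) + ∑ c, (R c).2.1 • (R c).2.2‖ ≤ 1)
    (s : ℝ) (hs : s ^ 2 = 2 ^ m) (hbig : 4096 ≤ s) : False := by
  have hs0 : 0 ≤ s := le_trans (by norm_num) hbig
  have hA := block_sum P R hP hR hsg hAA hb1 hb2 hs0 hs
  have hC := block_sum R P hR hP (sg_sym P R hsg) hCC (by rw [add_comm]; exact hb1)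
    (by rw [add_comm]; exact hb2) hs0 hs
  have hU := upper P R hP hR hsg hb hs0 hs
  have hL := lower P R hP hR hAA hs0 hs
  exact num_false _ s _ _ hbig hs hA hC (hL.trans hU)

end final

end Pool.Agent.SO
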