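import Pool.Agent.SO.Geo
import Pool.Agent.SO.Core

set_option autoImplicit false

namespace Pool.Agent.SO

open Finset

section lift
variable {E : Type*} [NormedAddCommGroup E] [InnerProductSpace ℝ E]

/-- the lift of a ball to the null cone of a form with two positive directions -/
noncomputable def lft (c : E) (r : ℝ) : ℝ × ℝ × WithLp 2 (ℝ × E) :=
  (r, (1 + (‖c‖ ^ 2 - r ^ 2)) / 2, WithLp.toLp 2 ((1 - (‖c‖ ^ 2 - r ^ 2)) / 2, c))

lemma lft_BB (c c' : E) (r r' : ℝ) :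
    BB (lft c r) (lft c' r') = (‖c - c'‖ ^ 2 - (r - r') ^ 2) / 2 := by
  unfold BB lft
  rw [WithLp.prod_inner_apply, norm_sub_sq_real]
  simp only [RCLike.inner_apply, conj_trivial]
  ring

lemma lft_null (c : E) (r : ℝ) : BB (lft c r) (lft c r) = 0 := by
  rw [lft_BB]; simp

lemma Q_incomp {x y : E} {r s : ℝ} (h1 : ¬ ‖x - y‖ + r ≤ s) (h2 : ¬ ‖y - x‖ + s ≤ r) :
    0 < ‖x - y‖ ^ 2 - (r - s) ^ 2 := by
  rw [norm_sub_rev y x] at h2
  have h3 : |r - s| < ‖x - y‖ := by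
    rw [abs_lt]; constructor <;> linarith
  have h4 := pow_lt_pow_left₀ h3 (abs_nonneg _) (n := 2) (by norm_num)
  rw [sq_abs] at h4
  linarith

lemma Q_comp {x y : E} {r s : ℝ} (h1 : ‖x - y‖ + r ≤ s) :
    ‖x - y‖ ^ 2 - (r - s) ^ 2 ≤ 0 := by
  have h3 : ‖x - y‖ ≤ s - r := by linarith
  have h4 := pow_le_pow_left₀ (norm_nonneg _) h3 2
  nlinarith

end lift

section nz
variable {X : Type*} [NormedAddCommGroup X] [InnerProductSpace ℝ X]

/-- normalisation -/
noncomputable def nz (p : ℝ × ℝ × X) : ℝ × ℝ × X :=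
  (p.1 / Real.sqrt (rho2 p), p.2.1 / Real.sqrt (rho2 p), (1 / Real.sqrt (rho2 p)) • p.2.2)

lemma nz_Nm {p : ℝ × ℝ × X} (hpos : 0 < rho2 p) (hnull : BB p p = 0) : Nm (nz p) := by
  have hs : 0 < Real.sqrt (rho2 p) := Real.sqrt_pos.mpr hpos
  have hs2 : Real.sqrt (rho2 p) ^ 2 = rho2 p := Real.sq_sqrt hpos.le
  constructor
  · have : rho2 (nz p) = rho2 p / Real.sqrt (rho2 p) ^ 2 := by
      unfold nz
      conv_lhs => unfold rho2
      simp only
      rw [div_pow, div_pow, ← add_div]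
      rfl
    rw [this, hs2, div_self hpos.ne']
  · have hn := null_norm hnull
    have : ‖p.2.2‖ = Real.sqrt (rho2 p) := by
      rw [← hn, Real.sqrt_sq (norm_nonneg _)]
    unfold nz
    simp only
    rw [norm_smul, Real.norm_eq_abs, abs_of_pos (by positivity), this]
    field_simp

lemma nz_BB (p q : ℝ × ℝ × X) :
    BB (nz p) (nz q) = (1 / Real.sqrt (rho2 p)) * (1 / Real.sqrt (rho2 q)) * BB p q := by
  unfold BB nz
  simp only [real_inner_smul_left, real_inner_smul_right]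
  ring

lemma nz_smul1 {p : ℝ × ℝ × X} (hpos : 0 < rho2 p) :
    (nz p).1 • (nz p).2.2 = (p.1 / rho2 p) • p.2.2 := by
  have hs : 0 < Real.sqrt (rho2 p) := Real.sqrt_pos.mpr hpos
  have hs2 : Real.sqrt (rho2 p) * Real.sqrt (rho2 p) = rho2 p := Real.mul_self_sqrt hpos.le
  unfold nz
  simp only
  rw [smul_smul]
  congr 1
  rw [div_mul_div_comm, mul_one, hs2]

lemma nz_smul2 {p : ℝ × ℝ × X} (hpos : 0 < rho2 p) :
    (nz p).2.1 • (nz p).2.2 = (p.2.1 / rho2 p) • p.2.2 := by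
  have hs : 0 < Real.sqrt (rho2 p) := Real.sqrt_pos.mpr hpos
  have hs2 : Real.sqrt (rho2 p) * Real.sqrt (rho2 p) = rho2 p := Real.mul_self_sqrt hpos.le
  unfold nz
  simp only
  rw [smul_smul]
  congr 1
  rw [div_mul_div_comm, mul_one, hs2]

end nz

/-- the carrier of the poset -/
def Pt (m : ℕ) : Type := Finset (Fin m) ⊕ ((Finset (Fin m) × Finset (Fin m)) ⊕ Finset (Fin m))

section poset
variable {m : ℕ}

def lo (a : Finset (Fin m)) : Pt m := Sum.inl a
def mi (a a' : Finset (Fin m)) : Pt m := Sum.inr (Sum.inl (a, a'))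
def hi (c : Finset (Fin m)) : Pt m := Sum.inr (Sum.inr c)

/-- the strict order relation together with equality -/
def rel : Pt m → Pt m → Prop
  | Sum.inl a, Sum.inl a' => a = a'
  | Sum.inl a, Sum.inr (Sum.inl (x, y)) => a = x ∨ a = y
  | Sum.inl a, Sum.inr (Sum.inr c) => Even (a ∩ c).card
  | Sum.inr (Sum.inl _), Sum.inl _ => False
  | Sum.inr (Sum.inl p), Sum.inr (Sum.inl q) => p = q
  | Sum.inr (Sum.inl (x, y)), Sum.inr (Sum.inr c) => Even (x ∩ c).card ∧ Even (y ∩ c).card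
  | Sum.inr (Sum.inr _), Sum.inl _ => False
  | Sum.inr (Sum.inr _), Sum.inr (Sum.inl _) => False
  | Sum.inr (Sum.inr c), Sum.inr (Sum.inr c') => c = c'

/-- level -/
def lev : Pt m → ℕ
  | Sum.inl _ => 0
  | Sum.inr (Sum.inl _) => 1
  | Sum.inr (Sum.inr _) => 2

lemma rel_refl (x : Pt m) : rel x x := by
  rcases x with a | ⟨x, y⟩ | c
  · exact rfl
  · exact rfl
  · exact rfl

lemma rel_trans (x y z : Pt m) (h1 : rel x y) (h2 : rel y z) : rel x z := by
  rcases x with a | ⟨a, a'⟩ | a <;> rcases y with b | ⟨b, b'⟩ | b <;>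
    rcases z with c | ⟨c, c'⟩ | c <;> simp only [rel] at h1 h2 ⊢
  · exact h1.trans h2
  · subst h1; exact h2
  · subst h1; exact h2
  · cases h2; exact h1
  · rcases h1 with h1 | h1
    · subst h1; exact h2.1
    · subst h1; exact h2.2
  · subst h2; exact h1
  · exact h1.trans h2
  · cases h1; exact h2
  · subst h2; exact h1
  · exact h1.trans h2

lemma rel_lev {x y : Pt m} (h : rel x y) : x = y ∨ lev x < lev y := by
  rcases x with a | ⟨a, a'⟩ | a <;> rcases y with b | ⟨b, b'⟩ | b <;> simp only [rel] at h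
  · left; rw [h]
  · right; exact Nat.zero_lt_one
  · right; exact Nat.zero_lt_two
  · left; rw [h]
  · right; exact Nat.one_lt_two
  · left; rw [h]

lemma lev_le (x : Pt m) : lev x ≤ 2 := by
  rcases x with a | ⟨x, y⟩ | c
  · exact Nat.zero_le 2
  · exact Nat.le_succ 1
  · exact le_refl 2

lemma rel_antisymm (x y : Pt m) (h1 : rel x y) (h2 : rel y x) : x = y := by
  rcases rel_lev h1 with h | h
  · exact h
  · rcases rel_lev h2 with h' | h'
    · exact h'.symm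
    · omega

instance instPt : PartialOrder (Pt m) where
  le := rel
  le_refl := rel_refl
  le_trans := rel_trans
  le_antisymm := rel_antisymm

lemma le_def (x y : Pt m) : x ≤ y ↔ rel x y := Iff.rfl

lemma lt_lev {x y : Pt m} (h : x < y) : lev x < lev y := by
  rcases rel_lev ((le_def x y).mp h.le) with h' | h'
  · exact absurd h' h.ne
  · exact h'

lemma height3 (w x y z : Pt m) : ¬ (w < x ∧ x < y ∧ y < z) := by
  rintro ⟨h1, h2, h3⟩
  have := lt_lev h1
  have := lt_lev h2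
  have := lt_lev h3
  have := lev_le z
  omega

instance instFPt : Fintype (Pt m) :=
  inferInstanceAs (Fintype (Finset (Fin m) ⊕ ((Finset (Fin m) × Finset (Fin m)) ⊕ Finset (Fin m))))

lemma card_Pt : Fintype.card (Pt m) = 2 ^ m + (2 ^ m * 2 ^ m + 2 ^ m) := by
  have : Fintype.card (Pt m) = Fintype.card
    (Finset (Fin m) ⊕ ((Finset (Fin m) × Finset (Fin m)) ⊕ Finset (Fin m))) := rfl
  rw [this, Fintype.card_sum, Fintype.card_sum, Fintype.card_prod, Fintype.card_finset,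
    Fintype.card_fin]

/-- flipping the membership of one point -/
def flp (i : Fin m) : Equiv.Perm (Finset (Fin m)) :=
  (show Function.Involutive (fun a : Finset (Fin m) => symmDiff a {i}) from fun a => by
    simp).toPerm

lemma flp_ne (i : Fin m) (a : Finset (Fin m)) : flp i a ≠ a := by
  intro h
  have h1 : symmDiff a ({i} : Finset (Fin m)) = a := h
  have h2 : symmDiff a (symmDiff a ({i} : Finset (Fin m))) = symmDiff a a := by rw [h1]
  rw [symmDiff_symmDiff_cancel_left, symmDiff_self] at h2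
  exact Finset.singleton_ne_empty i h2

lemma not_rel_lo {a a' : Finset (Fin m)} (h : a ≠ a') : ¬ rel (lo a) (lo a') := h
lemma not_rel_hi {a a' : Finset (Fin m)} (h : a ≠ a') : ¬ rel (hi a) (hi a') := h
lemma rel_lo_hi {a c : Finset (Fin m)} (h : Even (a ∩ c).card) : rel (lo a) (hi c) := h
lemma not_rel_lo_hi {a c : Finset (Fin m)} (h : ¬ Even (a ∩ c).card) : ¬ rel (lo a) (hi c) := h
lemma not_rel_hi_lo {a c : Finset (Fin m)} : ¬ rel (hi c) (lo a) := fun h => h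
lemma rel_lo_mi_left (a a' : Finset (Fin m)) : rel (lo a) (mi a a') := Or.inl rfl
lemma rel_lo_mi_right (a a' : Finset (Fin m)) : rel (lo a') (mi a a') := Or.inr rfl
lemma rel_mi_hi {a a' c : Finset (Fin m)} (h : Even (a ∩ c).card) (h' : Even (a' ∩ c).card) :
    rel (mi a a') (hi c) := ⟨h, h'⟩

lemma even_of_sg {a c : Finset (Fin m)} (hs : sg a c = 1) : Even (a ∩ c).card := by
  by_contra hne
  rw [sg_not_even hne] at hs
  norm_num at hs

end poset

section rep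
variable {E : Type*} [NormedAddCommGroup E] [InnerProductSpace ℝ E]

lemma main_ineq (A A' C C' b : E) (ra ra' rc rc' rb α α' γ γ' : ℝ)
    (hα : 0 ≤ α) (hα' : 0 ≤ α') (hγ : 0 ≤ γ) (hγ' : 0 ≤ γ')
    (h1 : ‖A - b‖ + ra ≤ rb) (h2 : ‖A' - b‖ + ra' ≤ rb)
    (h3 : ‖b - C‖ + rb ≤ rc) (h4 : ‖b - C'‖ + rb ≤ rc')
    (hA : 0 ≤ ‖A - A'‖ ^ 2 - (ra - ra') ^ 2) (hC : 0 ≤ ‖C - C'‖ ^ 2 - (rc - rc') ^ 2)
    (mA mC m1 m2 m3 m4 : ℝ)
    (emA : mA = α * α' * ((‖A - A'‖ ^ 2 - (ra - ra') ^ 2) / 2))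
    (emC : mC = γ * γ' * ((‖C - C'‖ ^ 2 - (rc - rc') ^ 2) / 2))
    (em1 : m1 = α * γ * ((‖A - C‖ ^ 2 - (ra - rc) ^ 2) / 2))
    (em2 : m2 = α * γ' * ((‖A - C'‖ ^ 2 - (ra - rc') ^ 2) / 2))
    (em3 : m3 = α' * γ * ((‖A' - C‖ ^ 2 - (ra' - rc) ^ 2) / 2))
    (em4 : m4 = α' * γ' * ((‖A' - C'‖ ^ 2 - (ra' - rc') ^ 2) / 2))
    (hmA : mA ≤ 2) (hmC : mC ≤ 2) :
    mA * mC ≤ -(m1 + m2 + m3 + m4) := by
  have e1 : A - b - (A' - b) = A - A' := by abel
  have e2 : b - C - (b - C') = -(C - C') := by abel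
  have e3 : A - b + (b - C) = A - C := by abel
  have e4 : A - b + (b - C') = A - C' := by abel
  have e5 : A' - b + (b - C) = A' - C := by abel
  have e6 : A' - b + (b - C') = A' - C' := by abel
  have hb := b_ineq (A - b) (A' - b) (b - C) (b - C') (rb - ra) (rb - ra') (rc - rb) (rc' - rb)
    α α' γ γ' (by linarith) (by linarith) (by linarith) (by linarith) hα hα' hγ hγ'
    (by
      have e2 : (rb - ra - (rb - ra')) ^ 2 = (ra - ra') ^ 2 := by ring
      rw [e1, e2]; exact hA)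
    (by
      have e2' : (rc - rb - (rc' - rb)) ^ 2 = (rc - rc') ^ 2 := by ring
      rw [e2, e2', norm_neg]; exact hC)
  rw [e1, e2, e3, e4, e5, e6, norm_neg] at hb
  have hmA0 : 0 ≤ mA := by rw [emA]; positivity
  have hmC0 : 0 ≤ mC := by rw [emC]; positivity
  have f1 : α * α' * (‖A - A'‖ ^ 2 - (rb - ra - (rb - ra')) ^ 2) *
      (γ * γ' * (‖C - C'‖ ^ 2 - (rc - rb - (rc' - rb)) ^ 2)) = 2 ^ 2 * (mA * mC) := by
    rw [emA, emC]; ring
  rw [f1, Real.sqrt_mul (by norm_num), Real.sqrt_sq (by norm_num)] at hb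
  have f2 : α * γ * ((rb - ra + (rc - rb)) ^ 2 - ‖A - C‖ ^ 2) +
      α * γ' * ((rb - ra + (rc' - rb)) ^ 2 - ‖A - C'‖ ^ 2) +
      α' * γ * ((rb - ra' + (rc - rb)) ^ 2 - ‖A' - C‖ ^ 2) +
      α' * γ' * ((rb - ra' + (rc' - rb)) ^ 2 - ‖A' - C'‖ ^ 2) = -2 * (m1 + m2 + m3 + m4) := by
    rw [em1, em2, em3, em4]; ring
  rw [f2] at hb
  have f3 : mA * mC ≤ 2 * Real.sqrt (mA * mC) := by
    have g0 := mul_nonneg hmA0 hmC0
    have g1 : mA * mC ≤ 2 ^ 2 := by
      have := mul_le_mul hmA hmC hmC0 (by norm_num)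
      linarith
    have g2 : Real.sqrt (mA * mC) ≤ 2 := by
      rw [Real.sqrt_le_left (by norm_num)]; exact g1
    have g3 := Real.mul_self_sqrt g0
    have g4 := mul_le_mul_of_nonneg_right g2 (Real.sqrt_nonneg (mA * mC))
    linarith
  linarith

variable {m : ℕ}

/-- extraction of the balanced normalised data -/
theorem rep_data (i0 : Fin m) (cen : Pt m → E) (r : Pt m → ℝ)
    (hcomp : ∀ x y : Pt m, rel x y → ‖cen x - cen y‖ + r x ≤ r y)
    (hinc : ∀ x y : Pt m, ¬ rel x y → ¬ ‖cen x - cen y‖ + r x ≤ r y) :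
    ∃ P R : Finset (Fin m) → ℝ × ℝ × WithLp 2 (ℝ × E),
      (∀ a, Nm (P a)) ∧ (∀ c, Nm (R c)) ∧
      (∀ a c, |BB (P a) (R c)| = - (sg a c * BB (P a) (R c))) ∧
      (∀ a a', 0 ≤ BB (P a) (P a')) ∧ (∀ c c', 0 ≤ BB (R c) (R c')) ∧
      (∀ a a' c c', sg a c = 1 → sg a c' = 1 → sg a' c = 1 → sg a' c' = 1 →
        BB (P a) (P a') * BB (R c) (R c') ≤
          -(BB (P a) (R c) + BB (P a) (R c') + BB (P a') (R c) + BB (P a') (R c'))) ∧
      ‖(∑ a, (P a).1 • (P a).2.2) + ∑ c, (R c).1 • (R c).2.2‖ ≤ 1 ∧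
      ‖(∑ a, (P a).2.1 • (P a).2.2) + ∑ c, (R c).2.1 • (R c).2.2‖ ≤ 1 := by
  have hQpos : ∀ x y : Pt m, ¬ rel x y → ¬ rel y x →
      0 < ‖cen x - cen y‖ ^ 2 - (r x - r y) ^ 2 := fun x y h1 h2 =>
    Q_incomp (hinc x y h1) (hinc y x h2)
  have hQneg : ∀ x y : Pt m, rel x y → ‖cen x - cen y‖ ^ 2 - (r x - r y) ^ 2 ≤ 0 := fun x y h1 =>
    Q_comp (hcomp x y h1)
  -- the two families
  let L : Pt m → ℝ × ℝ × WithLp 2 (ℝ × E) := fun x => lft (cen x) (r x)
  have hLBB : ∀ x y, BB (L x) (L y) = (‖cen x - cen y‖ ^ 2 - (r x - r y) ^ 2) / 2 :=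
    fun x y => lft_BB _ _ _ _
  let P : Finset (Fin m) ⊕ Finset (Fin m) → ℝ × ℝ × WithLp 2 (ℝ × E) :=
    Sum.elim (fun a => L (lo a)) (fun c => L (hi c))
  have hnull : ∀ i, BB (P i) (P i) = 0 := by
    rintro (a | c)
    · exact lft_null _ _
    · exact lft_null _ _
  have hσ : ∀ i, 0 < BB (P i) (P ((Equiv.sumCongr (flp i0) (flp i0)) i)) := by
    rintro (a | c)
    · show 0 < BB (L (lo a)) (L (lo (flp i0 a)))
      rw [hLBB]
      have := hQpos (lo a) (lo (flp i0 a)) (not_rel_lo (flp_ne i0 a).symm)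
        (not_rel_lo (flp_ne i0 a))
      linarith
    · show 0 < BB (L (hi c)) (L (hi (flp i0 c)))
      rw [hLBB]
      have := hQpos (hi c) (hi (flp i0 c)) (not_rel_hi (flp_ne i0 c).symm)
        (not_rel_hi (flp_ne i0 c))
      linarith
  obtain ⟨P', hG, hpos, hb1, hb2⟩ :=
    balance P (Equiv.sumCongr (flp i0) (flp i0)) hnull hσ 1 one_pos
  have hnull' : ∀ i, BB (P' i) (P' i) = 0 := fun i => (hG i i).trans (hnull i)
  have hGA : ∀ a a', BB (P' (Sum.inl a)) (P' (Sum.inl a')) =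
      (‖cen (lo a) - cen (lo a')‖ ^ 2 - (r (lo a) - r (lo a')) ^ 2) / 2 := fun a a' =>
    (hG _ _).trans (hLBB _ _)
  have hGC : ∀ a a', BB (P' (Sum.inr a)) (P' (Sum.inr a')) =
      (‖cen (hi a) - cen (hi a')‖ ^ 2 - (r (hi a) - r (hi a')) ^ 2) / 2 := fun a a' =>
    (hG _ _).trans (hLBB _ _)
  have hGX : ∀ a c, BB (P' (Sum.inl a)) (P' (Sum.inr c)) =
      (‖cen (lo a) - cen (hi c)‖ ^ 2 - (r (lo a) - r (hi c)) ^ 2) / 2 := fun a a' =>
    (hG _ _).trans (hLBB _ _)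
  have hsp : ∀ i, 0 < 1 / Real.sqrt (rho2 (P' i)) := fun i =>
    div_pos one_pos (Real.sqrt_pos.mpr (hpos i))
  have hNm : ∀ i, Nm (nz (P' i)) := fun i => nz_Nm (hpos i) (hnull' i)
  refine ⟨fun a => nz (P' (Sum.inl a)), fun c => nz (P' (Sum.inr c)),
    fun a => hNm _, fun c => hNm _, ?_, ?_, ?_, ?_, ?_, ?_⟩
  · intro a c
    simp only
    rw [nz_BB]
    have hk := mul_pos (hsp (Sum.inl a)) (hsp (Sum.inr c))
    by_cases hev : Even (a ∩ c).card
    · rw [sg_even hev, one_mul, abs_of_nonpos]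
      refine mul_nonpos_of_nonneg_of_nonpos hk.le ?_
      rw [hGX]
      have := hQneg (lo a) (hi c) (rel_lo_hi hev)
      linarith
    · rw [sg_not_even hev, neg_one_mul, neg_neg, abs_of_nonneg]
      refine mul_nonneg hk.le ?_
      rw [hGX]
      have := hQpos (lo a) (hi c) (not_rel_lo_hi hev) not_rel_hi_lo
      linarith
  · intro a a'
    simp only
    rw [nz_BB]
    refine mul_nonneg (mul_pos (hsp _) (hsp _)).le ?_
    by_cases haa : a = a'
    · subst haa; exact (hnull' _).ge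
    · rw [hGA]
      have := hQpos (lo a) (lo a') (not_rel_lo haa) (not_rel_lo (Ne.symm haa))
      linarith
  · intro a a'
    simp only
    rw [nz_BB]
    refine mul_nonneg (mul_pos (hsp _) (hsp _)).le ?_
    by_cases haa : a = a'
    · subst haa; exact (hnull' _).ge
    · rw [hGC]
      have := hQpos (hi a) (hi a') (not_rel_hi haa) (not_rel_hi (Ne.symm haa))
      linarith
  · intro a a' c c' s1 s2 s3 s4
    have e1 := even_of_sg s1
    have e2 := even_of_sg s2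
    have e3 := even_of_sg s3
    have e4 := even_of_sg s4
    have k1 := hcomp (lo a) (mi a a') (rel_lo_mi_left a a')
    have k2 := hcomp (lo a') (mi a a') (rel_lo_mi_right a a')
    have k3 := hcomp (mi a a') (hi c) (rel_mi_hi e1 e3)
    have k4 := hcomp (mi a a') (hi c') (rel_mi_hi e2 e4)
    have hA : 0 ≤ ‖cen (lo a) - cen (lo a')‖ ^ 2 - (r (lo a) - r (lo a')) ^ 2 := by
      by_cases haa : a = a'
      · subst haa; simp
      · exact (hQpos (lo a) (lo a') (not_rel_lo haa) (not_rel_lo (Ne.symm haa))).le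
    have hC : 0 ≤ ‖cen (hi c) - cen (hi c')‖ ^ 2 - (r (hi c) - r (hi c')) ^ 2 := by
      by_cases haa : c = c'
      · subst haa; simp
      · exact (hQpos (hi c) (hi c') (not_rel_hi haa) (not_rel_hi (Ne.symm haa))).le
    refine main_ineq (cen (lo a)) (cen (lo a')) (cen (hi c)) (cen (hi c')) (cen (mi a a'))
      (r (lo a)) (r (lo a')) (r (hi c)) (r (hi c')) (r (mi a a'))
      (1 / Real.sqrt (rho2 (P' (Sum.inl a)))) (1 / Real.sqrt (rho2 (P' (Sum.inl a'))))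
      (1 / Real.sqrt (rho2 (P' (Sum.inr c)))) (1 / Real.sqrt (rho2 (P' (Sum.inr c'))))
      (hsp _).le (hsp _).le (hsp _).le (hsp _).le k1 k2 k3 k4 hA hC _ _ _ _ _ _
      ?_ ?_ ?_ ?_ ?_ ?_ ?_ ?_
    · rw [nz_BB, hGA]
    · rw [nz_BB, hGC]
    · rw [nz_BB, hGX]
    · rw [nz_BB, hGX]
    · rw [nz_BB, hGX]
    · rw [nz_BB, hGX]
    · exact (le_abs_self _).trans ((hNm _).abs_le (hNm _))
    · exact (le_abs_self _).trans ((hNm _).abs_le (hNm _))
  · have : ∀ i, (nz (P' i)).1 • (nz (P' i)).2.2 = ((P' i).1 / rho2 (P' i)) • (P' i).2.2 :=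
      fun i => nz_smul1 (hpos i)
    simp only [this]
    rw [← Fintype.sum_sum_type (fun i => ((P' i).1 / rho2 (P' i)) • (P' i).2.2)]
    exact hb1
  · have : ∀ i, (nz (P' i)).2.1 • (nz (P' i)).2.2 = ((P' i).2.1 / rho2 (P' i)) • (P' i).2.2 :=
      fun i => nz_smul2 (hpos i)
    simp only [this]
    rw [← Fintype.sum_sum_type (fun i => ((P' i).2.1 / rho2 (P' i)) • (P' i).2.2)]
    exact hb2

end rep

end Pool.Agent.SO
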