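import Mathlib

set_option autoImplicit false

namespace Pool.Agent.SO

open Finset

section bal
variable {X : Type*} [NormedAddCommGroup X] [InnerProductSpace ℝ X] {I : Type*} [Fintype I]

/-- the bilinear form with two positive directions -/
noncomputable def BB (p q : ℝ × ℝ × X) : ℝ :=
  p.1 * q.1 + p.2.1 * q.2.1 - inner ℝ p.2.2 q.2.2

noncomputable def rho2 (p : ℝ × ℝ × X) : ℝ := p.1 ^ 2 + p.2.1 ^ 2

noncomputable def FF (P : I → ℝ × ℝ × X) : ℝ := ∑ i, Real.log (rho2 (P i))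

lemma rho2_nonneg (p : ℝ × ℝ × X) : 0 ≤ rho2 p := by unfold rho2; positivity

lemma null_norm {p : ℝ × ℝ × X} (h : BB p p = 0) : ‖p.2.2‖ ^ 2 = rho2 p := by
  unfold BB at h
  rw [real_inner_self_eq_norm_sq] at h
  unfold rho2; linarith

lemma BB_le {p q : ℝ × ℝ × X} (hp : BB p p = 0) (hq : BB q q = 0) :
    (BB p q) ^ 2 ≤ 4 * (rho2 p * rho2 q) := by
  have h1 := null_norm hp
  have h2 := null_norm hq
  have h3 : |inner ℝ p.2.2 q.2.2| ≤ ‖p.2.2‖ * ‖q.2.2‖ := abs_real_inner_le_norm _ _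
  have h4 : (inner ℝ p.2.2 q.2.2) ^ 2 ≤ rho2 p * rho2 q := by
    rw [← h1, ← h2, ← mul_pow, ← sq_abs]
    exact pow_le_pow_left₀ (abs_nonneg _) h3 2
  have h5 : (p.1 * q.1 + p.2.1 * q.2.1) ^ 2 ≤ rho2 p * rho2 q := by
    unfold rho2; nlinarith [sq_nonneg (p.1 * q.2.1 - p.2.1 * q.1)]
  unfold BB
  nlinarith [sq_nonneg ((p.1 * q.1 + p.2.1 * q.2.1) + inner ℝ p.2.2 q.2.2)]

/-- boost in the first time coordinate -/
noncomputable def boost (C K : ℝ) (f : X) (p : ℝ × ℝ × X) : ℝ × ℝ × X :=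
  (C * p.1 + K * inner ℝ f p.2.2, p.2.1,
    p.2.2 + ((C - 1) * inner ℝ f p.2.2 + K * p.1) • f)

lemma boost_BB {C K : ℝ} {f : X} (hf : ‖f‖ = 1) (hC : C ^ 2 - K ^ 2 = 1) (p q : ℝ × ℝ × X) :
    BB (boost C K f p) (boost C K f q) = BB p q := by
  unfold BB boost
  have hff : inner ℝ f f = 1 := by rw [real_inner_self_eq_norm_sq, hf]; norm_num
  simp only [inner_add_left, inner_add_right, real_inner_smul_left, real_inner_smul_right, hff]
  rw [real_inner_comm f p.2.2]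
  have hK : K ^ 2 = C ^ 2 - 1 := by linarith
  ring_nf
  rw [hK]
  ring

/-- swap of the two time coordinates -/
def swp (p : ℝ × ℝ × X) : ℝ × ℝ × X := (p.2.1, p.1, p.2.2)

lemma swp_BB (p q : ℝ × ℝ × X) : BB (swp p) (swp q) = BB p q := by
  unfold BB swp; ring

lemma swp_rho2 (p : ℝ × ℝ × X) : rho2 (swp p) = rho2 p := by
  unfold rho2 swp; ring

/-- change of the functional under a boost -/
lemma FF_boost {P : I → ℝ × ℝ × X} (hpos : ∀ i, 0 < rho2 (P i)) (hnull : ∀ i, BB (P i) (P i) = 0)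
    {C K : ℝ} {f : X} (hf : ‖f‖ = 1) (hC : C ^ 2 - K ^ 2 = 1)
    (hpos' : ∀ i, 0 < rho2 (boost C K f (P i))) :
    FF (fun i => boost C K f (P i)) ≤ FF P + 2 * (Fintype.card I) * K ^ 2
      + 2 * (C * K) * inner ℝ f (∑ i, ((P i).1 / rho2 (P i)) • (P i).2.2) := by
  have h : ∀ i, Real.log (rho2 (boost C K f (P i))) ≤ Real.log (rho2 (P i)) + 2 * K ^ 2
      + 2 * (C * K) * (((P i).1 / rho2 (P i)) * inner ℝ f (P i).2.2) := by
    intro i
    have h1 : Real.log (rho2 (boost C K f (P i))) - Real.log (rho2 (P i)) =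
        Real.log (rho2 (boost C K f (P i)) / rho2 (P i)) := by
      rw [Real.log_div (hpos' i).ne' (hpos i).ne']
    have h2 : Real.log (rho2 (boost C K f (P i)) / rho2 (P i)) ≤
        rho2 (boost C K f (P i)) / rho2 (P i) - 1 :=
      Real.log_le_sub_one_of_pos (div_pos (hpos' i) (hpos i))
    set y := inner ℝ f (P i).2.2 with hy
    have hy2 : y ^ 2 ≤ rho2 (P i) := by
      have := abs_real_inner_le_norm f (P i).2.2
      rw [hf, one_mul] at this
      have h3 := null_norm (hnull i)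
      rw [← h3, ← sq_abs]
      exact pow_le_pow_left₀ (abs_nonneg _) this 2
    have hx2 : (P i).1 ^ 2 ≤ rho2 (P i) := by unfold rho2; nlinarith [sq_nonneg (P i).2.1]
    have e : rho2 (boost C K f (P i)) - rho2 (P i) =
        K ^ 2 * ((P i).1 ^ 2 + y ^ 2) + 2 * (C * K) * ((P i).1 * y) := by
      unfold rho2 boost
      simp only
      rw [← hy]
      have : C ^ 2 = 1 + K ^ 2 := by linarith
      ring_nf
      rw [this]; ring
    have h4 : rho2 (boost C K f (P i)) / rho2 (P i) - 1 =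
        (K ^ 2 * ((P i).1 ^ 2 + y ^ 2) + 2 * (C * K) * ((P i).1 * y)) / rho2 (P i) := by
      rw [← e]; field_simp [(hpos i).ne']
    have h5 : (K ^ 2 * ((P i).1 ^ 2 + y ^ 2)) / rho2 (P i) ≤ 2 * K ^ 2 := by
      rw [div_le_iff₀ (hpos i)]
      have : K ^ 2 * ((P i).1 ^ 2 + y ^ 2) ≤ K ^ 2 * (2 * rho2 (P i)) :=
        mul_le_mul_of_nonneg_left (by linarith) (sq_nonneg K)
      linarith
    have h6 : (2 * (C * K) * ((P i).1 * y)) / rho2 (P i) =
        2 * (C * K) * (((P i).1 / rho2 (P i)) * y) := by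
      field_simp
    rw [add_div, h6] at h4
    linarith
  have hs : inner ℝ f (∑ i, ((P i).1 / rho2 (P i)) • (P i).2.2) =
      ∑ i, ((P i).1 / rho2 (P i)) * inner ℝ f (P i).2.2 := by
    rw [inner_sum]
    refine Finset.sum_congr rfl (fun i _ => ?_)
    rw [real_inner_smul_right]
  rw [hs, Finset.mul_sum]
  unfold FF
  calc ∑ i, Real.log (rho2 (boost C K f (P i)))
      ≤ ∑ i, (Real.log (rho2 (P i)) + 2 * K ^ 2
      + 2 * (C * K) * (((P i).1 / rho2 (P i)) * inner ℝ f (P i).2.2)) :=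
        Finset.sum_le_sum (fun i _ => h i)
    _ = _ := by
        rw [Finset.sum_add_distrib, Finset.sum_add_distrib]
        simp only [Finset.sum_const, Finset.card_univ, nsmul_eq_mul]
        ring

/-- near a minimum the first imbalance vector is small -/
lemma imb_small {P : I → ℝ × ℝ × X} (hpos : ∀ i, 0 < rho2 (P i))
    (hnull : ∀ i, BB (P i) (P i) = 0) {L ε : ℝ} (hε : 0 < ε) [Nonempty I]
    (hF : FF P < L + ε ^ 2 / (2 * (Fintype.card I)))
    (hL : ∀ (C K : ℝ) (f : X), ‖f‖ = 1 → C ^ 2 - K ^ 2 = 1 →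
      (∀ i, 0 < rho2 (boost C K f (P i))) ∧ L ≤ FF (fun i => boost C K f (P i))) :
    ‖∑ i, ((P i).1 / rho2 (P i)) • (P i).2.2‖ ≤ ε := by
  set R := ∑ i, ((P i).1 / rho2 (P i)) • (P i).2.2 with hR
  by_contra hcon
  rw [not_le] at hcon
  have hRpos : 0 < ‖R‖ := hε.trans hcon
  have hn : (0 : ℝ) < Fintype.card I := by exact_mod_cast Fintype.card_pos
  set n : ℝ := (Fintype.card I : ℝ) with hndef
  set f : X := (-(1 / ‖R‖)) • R with hf
  have hf1 : ‖f‖ = 1 := by
    rw [hf, norm_smul, norm_neg, Real.norm_eq_abs, abs_of_pos (by positivity)]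
    field_simp
  set K : ℝ := ε / (2 * n) with hK
  have hKpos : 0 < K := by positivity
  set C : ℝ := Real.sqrt (1 + K ^ 2) with hC
  have hC2 : C ^ 2 = 1 + K ^ 2 := Real.sq_sqrt (by positivity)
  have hC1 : 1 ≤ C := by
    rw [hC]; apply Real.one_le_sqrt.mpr; nlinarith [sq_nonneg K]
  obtain ⟨hp', hL'⟩ := hL C K f hf1 (by linarith)
  have h1 := FF_boost hpos hnull hf1 (by linarith : C ^ 2 - K ^ 2 = 1) hp'
  rw [← hR, ← hndef] at h1
  have hfR : inner ℝ f R = -‖R‖ := by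
    rw [hf, real_inner_smul_left, real_inner_self_eq_norm_sq]
    field_simp
  rw [hfR] at h1
  have h2 : 2 * (C * K) * ‖R‖ < ε ^ 2 / (2 * n) + 2 * n * K ^ 2 := by linarith
  have h3 : 2 * K * ε < 2 * (C * K) * ‖R‖ := by
    have : K * ε < (C * K) * ‖R‖ := by
      calc K * ε < K * ‖R‖ := mul_lt_mul_of_pos_left hcon hKpos
        _ ≤ (C * K) * ‖R‖ := by
          apply mul_le_mul_of_nonneg_right _ hRpos.le
          nlinarith
    linarith
  have h4 : ε ^ 2 / (2 * n) + 2 * n * K ^ 2 = 2 * K * ε := by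
    rw [hK]; field_simp; ring
  linarith

/-- balancing lemma -/
theorem balance (P : I → ℝ × ℝ × X) [Nonempty I] (σ : Equiv.Perm I)
    (hnull : ∀ i, BB (P i) (P i) = 0) (hσ : ∀ i, 0 < BB (P i) (P (σ i)))
    (ε : ℝ) (hε : 0 < ε) :
    ∃ P' : I → ℝ × ℝ × X, (∀ i j, BB (P' i) (P' j) = BB (P i) (P j)) ∧
      (∀ i, 0 < rho2 (P' i)) ∧
      ‖∑ i, ((P' i).1 / rho2 (P' i)) • (P' i).2.2‖ ≤ ε ∧
      ‖∑ i, ((P' i).2.1 / rho2 (P' i)) • (P' i).2.2‖ ≤ ε := by
  classical
  let S : Set (I → ℝ × ℝ × X) := {P' | ∀ i j, BB (P' i) (P' j) = BB (P i) (P j)}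
  have hpos : ∀ P' ∈ S, ∀ i, 0 < rho2 (P' i) := by
    intro P' hP' i
    have h1 : BB (P' i) (P' i) = 0 := (hP' i i).trans (hnull i)
    have h2 : BB (P' (σ i)) (P' (σ i)) = 0 := (hP' _ _).trans (hnull _)
    have h3 := BB_le h1 h2
    have h4 : 0 < BB (P' i) (P' (σ i)) := by rw [hP' i (σ i)]; exact hσ i
    rcases (rho2_nonneg (P' i)).lt_or_eq with h | h
    · exact h
    · rw [← h] at h3
      nlinarith
  have hbdd : ∀ P' ∈ S, (1 / 2) * ∑ i, Real.log ((BB (P i) (P (σ i))) ^ 2 / 4) ≤ FF P' := by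
    intro P' hP'
    have h1 : ∀ i, Real.log ((BB (P i) (P (σ i))) ^ 2 / 4) ≤
        Real.log (rho2 (P' i)) + Real.log (rho2 (P' (σ i))) := by
      intro i
      have hn1 : BB (P' i) (P' i) = 0 := (hP' i i).trans (hnull i)
      have hn2 : BB (P' (σ i)) (P' (σ i)) = 0 := (hP' _ _).trans (hnull _)
      have h3 := BB_le hn1 hn2
      rw [← Real.log_mul (hpos P' hP' i).ne' (hpos P' hP' (σ i)).ne']
      have h5 := hσ i
      apply Real.log_le_log (by positivity)
      rw [hP' i (σ i)] at h3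
      linarith
    have h2 : ∑ i, Real.log ((BB (P i) (P (σ i))) ^ 2 / 4) ≤
        ∑ i, (Real.log (rho2 (P' i)) + Real.log (rho2 (P' (σ i)))) :=
      Finset.sum_le_sum (fun i _ => h1 i)
    rw [Finset.sum_add_distrib, Equiv.sum_comp σ (fun i => Real.log (rho2 (P' i)))] at h2
    unfold FF
    linarith
  set T : Set ℝ := FF '' S with hT
  have hTne : T.Nonempty := ⟨FF P, P, fun _ _ => rfl, rfl⟩
  have hTb : BddBelow T := by
    refine ⟨(1 / 2) * ∑ i, Real.log ((BB (P i) (P (σ i))) ^ 2 / 4), ?_⟩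
    rintro _ ⟨P', hP', rfl⟩
    exact hbdd P' hP'
  have hδ : 0 < ε ^ 2 / (2 * (Fintype.card I : ℝ)) := by
    have : (0 : ℝ) < Fintype.card I := by exact_mod_cast Fintype.card_pos
    positivity
  obtain ⟨_, ⟨P', hP', rfl⟩, hlt⟩ := exists_lt_of_csInf_lt hTne
    (lt_add_of_pos_right (sInf T) hδ)
  refine ⟨P', hP', hpos P' hP', ?_, ?_⟩
  · refine imb_small (hpos P' hP') (fun i => (hP' i i).trans (hnull i)) hε hlt ?_
    intro C K f hf hC
    have hmem : (fun i => boost C K f (P' i)) ∈ S := by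
      intro i j
      rw [boost_BB hf hC]; exact hP' i j
    exact ⟨fun i => hpos _ hmem i, csInf_le hTb ⟨_, hmem, rfl⟩⟩
  · have hsw : (fun i => swp (P' i)) ∈ S := by
      intro i j
      rw [swp_BB]; exact hP' i j
    have hF : FF (fun i => swp (P' i)) = FF P' := by
      unfold FF
      refine Finset.sum_congr rfl (fun i _ => by rw [swp_rho2])
    have := imb_small (P := fun i => swp (P' i)) (L := sInf T) (hpos _ hsw)
      (fun i => (hsw i i).trans (hnull i)) hε (by rw [hF]; exact hlt) ?_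
    · simp only [swp_rho2] at this
      exact this
    · intro C K f hf hC
      have hmem : (fun i => boost C K f (swp (P' i))) ∈ S := by
        intro i j
        rw [boost_BB hf hC]; exact hsw i j
      exact ⟨fun i => hpos _ hmem i, csInf_le hTb ⟨_, hmem, rfl⟩⟩

end bal

end Pool.Agent.SO
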