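import Mathlib

set_option autoImplicit false

namespace Pool.Agent.SO

open Finset

section geometry
variable {E : Type*} [NormedAddCommGroup E] [InnerProductSpace ℝ E]

/-- containment of closed balls gives the distance inequality (in a nonzero space) -/
lemma ball_sub {x y : E} {r s : ℝ} (hr : 0 < r) (hE : ∃ v : E, v ≠ 0)
    (h : Metric.closedBall x r ⊆ Metric.closedBall y s) : ‖x - y‖ + r ≤ s := by
  by_cases hxy : x = y
  · subst hxy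
    obtain ⟨v, hv⟩ := hE
    have hv' : 0 < ‖v‖ := norm_pos_iff.mpr hv
    have hn : ‖(r / ‖v‖) • v‖ = r := by
      rw [norm_smul, Real.norm_eq_abs, abs_of_pos (div_pos hr hv')]
      field_simp
    have hmem : x + (r / ‖v‖) • v ∈ Metric.closedBall x r := by
      rw [Metric.mem_closedBall, dist_eq_norm, add_sub_cancel_left, hn]
    have := h hmem
    rw [Metric.mem_closedBall, dist_eq_norm, add_sub_cancel_left, hn] at this
    simpa using this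
  · have hd : 0 < ‖x - y‖ := norm_pos_iff.mpr (sub_ne_zero.mpr hxy)
    have hn : ‖(r / ‖x - y‖) • (x - y)‖ = r := by
      rw [norm_smul, Real.norm_eq_abs, abs_of_pos (div_pos hr hd)]
      field_simp
    have hmem : x + (r / ‖x - y‖) • (x - y) ∈ Metric.closedBall x r := by
      rw [Metric.mem_closedBall, dist_eq_norm, add_sub_cancel_left, hn]
    have := h hmem
    rw [Metric.mem_closedBall, dist_eq_norm] at this
    have he : x + (r / ‖x - y‖) • (x - y) - y = (1 + r / ‖x - y‖) • (x - y) := by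
      rw [add_smul, one_smul]; abel
    rw [he, norm_smul, Real.norm_eq_abs, abs_of_pos (by positivity), add_mul, one_mul,
      div_mul_cancel₀ _ hd.ne'] at this
    exact this

lemma sub_ball {x y : E} {r s : ℝ} (h : ‖x - y‖ + r ≤ s) :
    Metric.closedBall x r ⊆ Metric.closedBall y s := by
  apply Metric.closedBall_subset_closedBall'
  rw [dist_eq_norm]; linarith

/-- reverse Cauchy-Schwarz for causal vectors -/
lemma rev_cs (x y : E) (s t : ℝ) (hx : ‖x‖ ≤ s) (hy : ‖y‖ ≤ t) :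
    Real.sqrt ((s ^ 2 - ‖x‖ ^ 2) * (t ^ 2 - ‖y‖ ^ 2)) ≤ s * t - inner ℝ x y := by
  have h1 : inner ℝ x y ≤ ‖x‖ * ‖y‖ := real_inner_le_norm x y
  have hx0 := norm_nonneg x
  have hy0 := norm_nonneg y
  have h2 : ‖x‖ * ‖y‖ ≤ s * t := mul_le_mul hx hy hy0 (hx0.trans hx)
  rw [Real.sqrt_le_left (by linarith)]
  have h3 : (s * t - ‖x‖ * ‖y‖) ^ 2 ≤ (s * t - inner ℝ x y) ^ 2 :=
    pow_le_pow_left₀ (by linarith) (by linarith) 2
  nlinarith [sq_nonneg (s * ‖y‖ - t * ‖x‖)]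

set_option maxHeartbeats 1000000 in
/-- the key local inequality -/
lemma b_ineq (u u' v v' : E) (s s' t t' α α' γ γ' : ℝ)
    (hu : ‖u‖ ≤ s) (hu' : ‖u'‖ ≤ s') (hv : ‖v‖ ≤ t) (hv' : ‖v'‖ ≤ t')
    (hα : 0 ≤ α) (hα' : 0 ≤ α') (hγ : 0 ≤ γ) (hγ' : 0 ≤ γ')
    (hA : 0 ≤ ‖u - u'‖ ^ 2 - (s - s') ^ 2) (hC : 0 ≤ ‖v - v'‖ ^ 2 - (t - t') ^ 2) :
    2 * Real.sqrt ((α * α' * (‖u - u'‖ ^ 2 - (s - s') ^ 2)) *
        (γ * γ' * (‖v - v'‖ ^ 2 - (t - t') ^ 2))) ≤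
      α * γ * ((s + t) ^ 2 - ‖u + v‖ ^ 2) + α * γ' * ((s + t') ^ 2 - ‖u + v'‖ ^ 2)
      + α' * γ * ((s' + t) ^ 2 - ‖u' + v‖ ^ 2) + α' * γ' * ((s' + t') ^ 2 - ‖u' + v'‖ ^ 2) := by
  have hs : 0 ≤ s := (norm_nonneg _).trans hu
  have hs' : 0 ≤ s' := (norm_nonneg _).trans hu'
  have ht : 0 ≤ t := (norm_nonneg _).trans hv
  have ht' : 0 ≤ t' := (norm_nonneg _).trans hv'
  have hA1 : ‖α • u + α' • u'‖ ≤ α * s + α' * s' := by
    refine (norm_add_le _ _).trans ?_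
    rw [norm_smul, norm_smul, Real.norm_eq_abs, Real.norm_eq_abs, abs_of_nonneg hα,
      abs_of_nonneg hα']
    exact add_le_add (mul_le_mul_of_nonneg_left hu hα) (mul_le_mul_of_nonneg_left hu' hα')
  have hC1 : ‖γ • v + γ' • v'‖ ≤ γ * t + γ' * t' := by
    refine (norm_add_le _ _).trans ?_
    rw [norm_smul, norm_smul, Real.norm_eq_abs, Real.norm_eq_abs, abs_of_nonneg hγ,
      abs_of_nonneg hγ']
    exact add_le_add (mul_le_mul_of_nonneg_left hv hγ) (mul_le_mul_of_nonneg_left hv' hγ')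
  have key := rev_cs (α • u + α' • u') (γ • v + γ' • v') _ _ hA1 hC1
  have nu : ‖u‖ ^ 2 ≤ s ^ 2 := pow_le_pow_left₀ (norm_nonneg _) hu 2
  have nu' : ‖u'‖ ^ 2 ≤ s' ^ 2 := pow_le_pow_left₀ (norm_nonneg _) hu' 2
  have nv : ‖v‖ ^ 2 ≤ t ^ 2 := pow_le_pow_left₀ (norm_nonneg _) hv 2
  have nv' : ‖v'‖ ^ 2 ≤ t' ^ 2 := pow_le_pow_left₀ (norm_nonneg _) hv' 2
  have e1 : ‖α • u + α' • u'‖ ^ 2 = α ^ 2 * ‖u‖ ^ 2 + 2 * (α * α' * inner ℝ u u')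
      + α' ^ 2 * ‖u'‖ ^ 2 := by
    rw [norm_add_sq_real, norm_smul, norm_smul, real_inner_smul_left, real_inner_smul_right,
      mul_pow, mul_pow, Real.norm_eq_abs, Real.norm_eq_abs, sq_abs, sq_abs]
    ring
  have e2 : ‖γ • v + γ' • v'‖ ^ 2 = γ ^ 2 * ‖v‖ ^ 2 + 2 * (γ * γ' * inner ℝ v v')
      + γ' ^ 2 * ‖v'‖ ^ 2 := by
    rw [norm_add_sq_real, norm_smul, norm_smul, real_inner_smul_left, real_inner_smul_right,
      mul_pow, mul_pow, Real.norm_eq_abs, Real.norm_eq_abs, sq_abs, sq_abs]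
    ring
  have e3 : ‖u - u'‖ ^ 2 = ‖u‖ ^ 2 - 2 * inner ℝ u u' + ‖u'‖ ^ 2 := norm_sub_sq_real u u'
  have e4 : ‖v - v'‖ ^ 2 = ‖v‖ ^ 2 - 2 * inner ℝ v v' + ‖v'‖ ^ 2 := norm_sub_sq_real v v'
  have e5 : inner ℝ (α • u + α' • u') (γ • v + γ' • v') =
      α * γ * inner ℝ u v + α * γ' * inner ℝ u v' + α' * γ * inner ℝ u' v
        + α' * γ' * inner ℝ u' v' := by
    simp only [inner_add_left, inner_add_right, real_inner_smul_left, real_inner_smul_right]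
    ring
  have f1 : ‖u + v‖ ^ 2 = ‖u‖ ^ 2 + 2 * inner ℝ u v + ‖v‖ ^ 2 := norm_add_sq_real u v
  have f2 : ‖u + v'‖ ^ 2 = ‖u‖ ^ 2 + 2 * inner ℝ u v' + ‖v'‖ ^ 2 := norm_add_sq_real u v'
  have f3 : ‖u' + v‖ ^ 2 = ‖u'‖ ^ 2 + 2 * inner ℝ u' v + ‖v‖ ^ 2 := norm_add_sq_real u' v
  have f4 : ‖u' + v'‖ ^ 2 = ‖u'‖ ^ 2 + 2 * inner ℝ u' v' + ‖v'‖ ^ 2 := norm_add_sq_real u' v'
  have gA : α * α' * (‖u - u'‖ ^ 2 - (s - s') ^ 2) ≤
      (α * s + α' * s') ^ 2 - ‖α • u + α' • u'‖ ^ 2 := by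
    rw [e1, e3]
    have k1 : 0 ≤ α ^ 2 * (s ^ 2 - ‖u‖ ^ 2) := by have := sub_nonneg.mpr nu; positivity
    have k2 : 0 ≤ α' ^ 2 * (s' ^ 2 - ‖u'‖ ^ 2) := by have := sub_nonneg.mpr nu'; positivity
    have k3 : 0 ≤ α * α' * (s ^ 2 - ‖u‖ ^ 2) := by have := sub_nonneg.mpr nu; positivity
    have k4 : 0 ≤ α * α' * (s' ^ 2 - ‖u'‖ ^ 2) := by have := sub_nonneg.mpr nu'; positivity
    linarith
  have gC : γ * γ' * (‖v - v'‖ ^ 2 - (t - t') ^ 2) ≤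
      (γ * t + γ' * t') ^ 2 - ‖γ • v + γ' • v'‖ ^ 2 := by
    rw [e2, e4]
    have k1 : 0 ≤ γ ^ 2 * (t ^ 2 - ‖v‖ ^ 2) := by have := sub_nonneg.mpr nv; positivity
    have k2 : 0 ≤ γ' ^ 2 * (t' ^ 2 - ‖v'‖ ^ 2) := by have := sub_nonneg.mpr nv'; positivity
    have k3 : 0 ≤ γ * γ' * (t ^ 2 - ‖v‖ ^ 2) := by have := sub_nonneg.mpr nv; positivity
    have k4 : 0 ≤ γ * γ' * (t' ^ 2 - ‖v'‖ ^ 2) := by have := sub_nonneg.mpr nv'; positivity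
    linarith
  have gsq : Real.sqrt ((α * α' * (‖u - u'‖ ^ 2 - (s - s') ^ 2)) *
        (γ * γ' * (‖v - v'‖ ^ 2 - (t - t') ^ 2))) ≤
      Real.sqrt (((α * s + α' * s') ^ 2 - ‖α • u + α' • u'‖ ^ 2) *
        ((γ * t + γ' * t') ^ 2 - ‖γ • v + γ' • v'‖ ^ 2)) := by
    apply Real.sqrt_le_sqrt
    apply mul_le_mul gA gC (by positivity)
    exact le_trans (by positivity) gA
  have tot : 2 * ((α * s + α' * s') * (γ * t + γ' * t')
      - inner ℝ (α • u + α' • u') (γ • v + γ' • v')) ≤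
      α * γ * ((s + t) ^ 2 - ‖u + v‖ ^ 2) + α * γ' * ((s + t') ^ 2 - ‖u + v'‖ ^ 2)
      + α' * γ * ((s' + t) ^ 2 - ‖u' + v‖ ^ 2) + α' * γ' * ((s' + t') ^ 2 - ‖u' + v'‖ ^ 2) := by
    rw [e5, f1, f2, f3, f4]
    have m1 : 0 ≤ α * γ * ((s ^ 2 - ‖u‖ ^ 2) + (t ^ 2 - ‖v‖ ^ 2)) := by
      have := sub_nonneg.mpr nu; have := sub_nonneg.mpr nv; positivity
    have m2 : 0 ≤ α * γ' * ((s ^ 2 - ‖u‖ ^ 2) + (t' ^ 2 - ‖v'‖ ^ 2)) := by
      have := sub_nonneg.mpr nu; have := sub_nonneg.mpr nv'; positivity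
    have m3 : 0 ≤ α' * γ * ((s' ^ 2 - ‖u'‖ ^ 2) + (t ^ 2 - ‖v‖ ^ 2)) := by
      have := sub_nonneg.mpr nu'; have := sub_nonneg.mpr nv; positivity
    have m4 : 0 ≤ α' * γ' * ((s' ^ 2 - ‖u'‖ ^ 2) + (t' ^ 2 - ‖v'‖ ^ 2)) := by
      have := sub_nonneg.mpr nu'; have := sub_nonneg.mpr nv'; positivity
    linarith
  linarith

end geometry

end Pool.Agent.SO
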