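import Pool.Agent.SO.Asm

set_option autoImplicit false

namespace Pool.Agent.SO

/-- the poset `Pt m` has no representation by balls as soon as `24 ≤ m` -/
theorem not_rep {E : Type*} [NormedAddCommGroup E] [InnerProductSpace ℝ E] {m : ℕ} (hm : 24 ≤ m)
    (cen : Pt m → E) (r : Pt m → ℝ) (hr : ∀ x, 0 < r x)
    (h : ∀ x y : Pt m,
      x ≤ y ↔ Metric.closedBall (cen x) (r x) ⊆ Metric.closedBall (cen y) (r y)) :
    False := by
  by_cases hE : ∃ v : E, v ≠ 0
  · obtain ⟨P, R, h1, h2, h3, h4, h5, h6, h7, h8⟩ := rep_data (⟨0, by omega⟩ : Fin m) cen r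
      (fun x y hxy => ball_sub (hr x) hE ((h x y).mp hxy))
      (fun x y hxy hle => hxy ((h x y).mpr (sub_ball hle)))
    refine core_false P R h1 h2 h3 h4 h5 h6 h7 h8 (Real.sqrt (2 ^ m))
      (Real.sq_sqrt (by positivity)) ?_
    apply Real.le_sqrt_of_sq_le
    calc (4096 : ℝ) ^ 2 = 2 ^ 24 := by norm_num
      _ ≤ 2 ^ m := pow_le_pow_right₀ (by norm_num) hm
  · push Not at hE
    have hsub : Metric.closedBall (cen (hi ∅)) (r (hi ∅)) ⊆
        Metric.closedBall (cen (lo ∅)) (r (lo ∅)) := by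
      intro z _
      rw [Metric.mem_closedBall, dist_eq_norm, hE (z - cen (lo ∅)), norm_zero]
      exact (hr _).le
    exact not_rel_hi_lo ((h (hi ∅) (lo ∅)).mpr hsub)

end Pool.Agent.SO
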